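import Pool.Agent.Lib_MP_0225c1.Own.Sched

open MeasureTheory ProbabilityTheory
open scoped ENNReal

namespace Pool.Agent.PR0225.Own

private theorem near2 {x : ℝ} (hx : 1 ≤ x) : ∃ k : ℕ, x ≤ 2 ^ k ∧ (2 : ℝ) ^ k ≤ 2 * x := by
  obtain ⟨k, h1, h2⟩ := exists_nat_pow_near (y := (2 : ℝ)) hx (by norm_num)
  refine ⟨k + 1, h2.le, ?_⟩
  rw [pow_succ]
  linarith

/-- the choice of the three powers of two -/
private theorem choice3 (a c d L l : ℝ) (ha : 1 ≤ a) (hc : 1 ≤ c) (hd : 1 ≤ d) (hL : 0 < L)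
    (hl : 3 / 2 ≤ l) (hl2 : c + d ≤ Real.exp l) :
    ∃ i m r : ℕ, 8 * c ≤ 2 ^ i * 2 ^ r ∧ 2 * d ≤ 2 ^ r * 2 ^ m ∧
      (2 * Real.sqrt (2 ^ r * Real.exp (-(2 : ℝ) ^ i))) ^ (2 ^ m) ≤ Real.exp (-(a * L)) ∧
      (2 : ℝ) ^ (i + r + m) ≤ 272 * a * l * (c + d + L + Real.sqrt (c * d * L)) := by
  have hQ0 : 0 ≤ Real.sqrt (c * L / d) := Real.sqrt_nonneg _
  obtain ⟨i, hi1, hi2⟩ := near2 (x := max (8 * l) (Real.sqrt (c * L / d)))
    (le_trans (by linarith) (le_max_left _ _))
  have hF1 : 8 * l ≤ 2 ^ i := (le_max_left _ _).trans hi1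
  have hF2 : Real.sqrt (c * L / d) ≤ 2 ^ i := (le_max_right _ _).trans hi1
  have hF3 : (2 : ℝ) ^ i ≤ 2 * (8 * l + Real.sqrt (c * L / d)) :=
    hi2.trans (mul_le_mul_of_nonneg_left (max_le_add_of_nonneg (by linarith) hQ0) (by norm_num))
  set F : ℝ := 2 ^ i with hF
  have hF0 : 0 < F := by positivity
  obtain ⟨m, hm1, hm2⟩ := near2 (x := max 1 (8 * a * L / F)) (le_max_left _ _)
  have hN1 : 1 ≤ (2 : ℝ) ^ m := (le_max_left _ _).trans hm1
  have hN2 : 8 * a * L / F ≤ 2 ^ m := (le_max_right _ _).trans hm1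
  have haL : 0 ≤ 8 * a * L / F := by positivity
  have hN3 : (2 : ℝ) ^ m ≤ 2 * (1 + 8 * a * L / F) :=
    hm2.trans (mul_le_mul_of_nonneg_left (max_le_add_of_nonneg (by norm_num) haL) (by norm_num))
  have hN0 : (0 : ℝ) < 2 ^ m := by positivity
  obtain ⟨r, hr1, hr2⟩ := near2 (x := max (max 1 (8 * c / F)) (2 * d / 2 ^ m))
    ((le_max_left _ _).trans (le_max_left _ _))
  have hR1 : 8 * c / F ≤ 2 ^ r := ((le_max_right _ _).trans (le_max_left _ _)).trans hr1
  have hR2 : 2 * d / 2 ^ m ≤ 2 ^ r := (le_max_right _ _).trans hr1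
  have hcF : 0 ≤ 8 * c / F := by positivity
  have hdN : 0 ≤ 2 * d / 2 ^ m := by positivity
  have hR3 : (2 : ℝ) ^ r ≤ 2 * (1 + 8 * c / F + 2 * d / 2 ^ m) := by
    refine hr2.trans (mul_le_mul_of_nonneg_left ?_ (by norm_num))
    refine (max_le_add_of_nonneg (le_trans (by norm_num) (le_max_left 1 _)) hdN).trans ?_
    have := max_le_add_of_nonneg (zero_le_one' ℝ) hcF
    linarith
  have hR0 : (0 : ℝ) < 2 ^ r := by positivity
  have hcF1 : 8 * c / F ≤ c := by
    rw [div_le_iff₀ hF0]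
    nlinarith
  have hdN1 : 2 * d / 2 ^ m ≤ 2 * d := by
    rw [div_le_iff₀ hN0]
    nlinarith
  have hQ : Real.sqrt (c * L / d) * d = Real.sqrt (c * d * L) := by
    have hd0 : 0 < d := by linarith
    have h1 : c * d * L = (c * L / d) * d ^ 2 := by
      field_simp
    rw [h1, Real.sqrt_mul (by positivity), Real.sqrt_sq hd0.le]
  set Q : ℝ := Real.sqrt (c * d * L) with hQd
  have hQ1 : 0 ≤ Q := Real.sqrt_nonneg _
  refine ⟨i, m, r, ?_, ?_, ?_, ?_⟩
  · rw [div_le_iff₀ hF0] at hR1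
    linarith
  · rw [div_le_iff₀ hN0] at hR2
    exact hR2
  · -- the failure probability
    have h1 : 4 * (2 : ℝ) ^ r ≤ Real.exp (3 * F / 4) := by
      have h2 : (2 : ℝ) ^ r ≤ 4 * Real.exp l := by
        have : 1 + 8 * c / F + 2 * d / 2 ^ m ≤ 2 * (c + d) := by linarith
        linarith
      have h3 : (16 : ℝ) ≤ Real.exp 4 := by
        have h4 : (2 : ℝ) ≤ Real.exp 1 := by
          have := Real.exp_one_gt_d9
          linarith
        have h5 : Real.exp 4 = Real.exp 1 ^ 4 := by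
          rw [← Real.exp_nat_mul]
          norm_num
        rw [h5]
        calc (16 : ℝ) = 2 ^ 4 := by norm_num
          _ ≤ Real.exp 1 ^ 4 := pow_le_pow_left₀ (by norm_num) h4 4
      calc 4 * (2 : ℝ) ^ r ≤ 16 * Real.exp l := by linarith
        _ ≤ Real.exp 4 * Real.exp l := mul_le_mul_of_nonneg_right h3 (Real.exp_pos _).le
        _ = Real.exp (4 + l) := (Real.exp_add _ _).symm
        _ ≤ Real.exp (3 * F / 4) := Real.exp_le_exp.2 (by linarith)
    have h2 : 2 * Real.sqrt (2 ^ r * Real.exp (-F)) ≤ Real.exp (-(F / 8)) := by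
      have h3 : (2 : ℝ) ^ r * Real.exp (-F) ≤ (Real.exp (-(F / 8)) / 2) ^ 2 := by
        have h4 : (Real.exp (-(F / 8)) / 2) ^ 2 = Real.exp (3 * F / 4) * Real.exp (-F) / 4 := by
          rw [← Real.exp_add, div_pow, ← Real.exp_nat_mul]
          congr 1
          · congr 1
            push_cast
            ring
          · norm_num
        rw [h4]
        have h5 := mul_le_mul_of_nonneg_right h1 (Real.exp_pos (-F)).le
        linarith
      have h6 := Real.sqrt_le_sqrt h3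
      rw [Real.sqrt_sq (by positivity)] at h6
      linarith
    calc (2 * Real.sqrt (2 ^ r * Real.exp (-F))) ^ (2 ^ m)
        ≤ Real.exp (-(F / 8)) ^ (2 ^ m) := pow_le_pow_left₀ (by positivity) h2 _
      _ = Real.exp (-(F * 2 ^ m / 8)) := by
          rw [← Real.exp_nat_mul]
          congr 1
          push_cast
          ring
      _ ≤ Real.exp (-(a * L)) := by
          apply Real.exp_le_exp.2
          rw [div_le_iff₀ hF0] at hN2
          linarith
  · -- the length of the block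
    have hFN : F * 2 ^ m ≤ 2 * F + 16 * a * L := by
      have h1 := mul_le_mul_of_nonneg_left hN3 hF0.le
      have h2 : F * (2 * (1 + 8 * a * L / F)) = 2 * F + 16 * a * L := by
        field_simp
        ring
      linarith
    have hcLF : c * L / F ≤ Q := by
      rw [div_le_iff₀ hF0]
      have h1 : Q * Real.sqrt (c * L / d) ≤ Q * F := mul_le_mul_of_nonneg_left hF2 hQ1
      have h2 : Q * Real.sqrt (c * L / d) = c * L := by
        rw [← hQ]
        have h3 : Real.sqrt (c * L / d) * Real.sqrt (c * L / d) = c * L / d :=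
          Real.mul_self_sqrt (by positivity)
        have hd0 : 0 < d := by linarith
        calc Real.sqrt (c * L / d) * d * Real.sqrt (c * L / d)
            = Real.sqrt (c * L / d) * Real.sqrt (c * L / d) * d := by ring
          _ = c * L / d * d := by rw [h3]
          _ = c * L := by field_simp
      linarith
    have hcN : c * 2 ^ m ≤ 2 * c + 16 * a * Q := by
      have h1 := mul_le_mul_of_nonneg_left hN3 (show 0 ≤ c by linarith)
      have h2 : c * (2 * (1 + 8 * a * L / F)) = 2 * c + 16 * a * (c * L / F) := by ring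
      have h3 : 16 * a * (c * L / F) ≤ 16 * a * Q :=
        mul_le_mul_of_nonneg_left hcLF (by positivity)
      linarith
    have hdF : d * F ≤ 16 * l * d + 2 * Q := by
      have h1 := mul_le_mul_of_nonneg_left hF3 (show 0 ≤ d by linarith)
      have h2 : d * (2 * (8 * l + Real.sqrt (c * L / d))) = 16 * l * d + 2 * Q := by
        rw [← hQ]
        ring
      linarith
    have hFdF : F ≤ d * F := le_mul_of_one_le_left hF0.le hd
    have hmain : (2 : ℝ) ^ (i + r + m) ≤ 2 * (F * 2 ^ m + 8 * (c * 2 ^ m) + 2 * (d * F)) := by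
      have h1 : (2 : ℝ) ^ (i + r + m) = F * 2 ^ m * 2 ^ r := by
        rw [pow_add, pow_add, hF]
        ring
      have h2 := mul_le_mul_of_nonneg_left hR3 (show 0 ≤ F * 2 ^ m by positivity)
      have h3 : F * 2 ^ m * (2 * (1 + 8 * c / F + 2 * d / 2 ^ m)) =
          2 * (F * 2 ^ m + 8 * (c * 2 ^ m) + 2 * (d * F)) := by
        field_simp
      rw [h1]
      linarith
    have h1 : (2 : ℝ) ^ (i + r + m) ≤ 128 * l * d + 16 * Q + 32 * a * L + 32 * c + 256 * a * Q := by
      linarith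
    have hQa : Q ≤ a * Q := le_mul_of_one_le_left hQ1 ha
    have hal : 1 ≤ a * l := by nlinarith
    have e1 : l * d ≤ a * l * d := by
      have : l ≤ a * l := le_mul_of_one_le_left (by linarith) ha
      exact mul_le_mul_of_nonneg_right this (by linarith)
    have hla : a ≤ a * l := le_mul_of_one_le_right (by linarith) (by linarith)
    have e2 : a * L ≤ a * l * L := mul_le_mul_of_nonneg_right hla hL.le
    have e3 : c ≤ a * l * c := le_mul_of_one_le_left (by linarith) hal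
    have e4 : a * Q ≤ a * l * Q := mul_le_mul_of_nonneg_right hla hQ1
    have e5 : 0 ≤ a * l * Q := by positivity
    have e6 : 0 ≤ a * l * d := by positivity
    have e7 : 0 ≤ a * l * c := by positivity
    have e8 : 0 ≤ a * l * L := by positivity
    have h2 : 272 * a * l * (c + d + L + Q) =
        272 * (a * l * c) + 272 * (a * l * d) + 272 * (a * l * L) + 272 * (a * l * Q) := by ring
    rw [h2]
    linarith

/-- **ARITH2.** Choice of the sub-block for a packet with own congestion `c` and path length `d`.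

Proof. Let `L = log n ≥ log 2`, `l = log (2 + c + d + L) ≥ 3 / 2`. Let `x = max (8 l) (√(c L / d))`,
`2 ^ i ∈ [x, 2 x]`; `y = max 1 (8 (α + 1) L / 2 ^ i)`, `2 ^ m ∈ [y, 2 y]`;
`z = max (1, 8 c / 2 ^ i, 2 d / 2 ^ m)`, `2 ^ r ∈ [z, 2 z]`; `s = i + r + m`, `b = i (s + 1) + r` (so
`b / (s + 1) = i`, `b % (s + 1) = r`, `NN s b = 2 ^ m`). The first conditions are clear. Fourth:
`r log 2 ≤ log (2 z) ≤ log 2 + log (8 c + 2 d) ≤ log 16 + l`, so with `F = 2 ^ i ≥ 8 l`:
`log 2 + (r log 2) / 2 ≤ log 8 + l / 2 ≤ 3 F / 8`, i.e. `2 √(R exp (-F)) ≤ exp (-F / 8)`, and the power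
`2 ^ m` is at most `exp (-F 2 ^ m / 8) ≤ exp (-(α + 1) L)`. Last: `2 ^ s = F R N ≤
2 (F N + 8 c N + 2 d F)` with `F ≤ 2 x`, `N ≤ 2 y`; `√(c L / d) ≤ √(c L) ≤ c + L`,
`c L / F ≤ √(c d L)` and `d √(c L / d) = √(c d L)` give `2 ^ s ≤ B (c + l d + L + √(c d L))` with `B`
depending on `α`; so `2 ^ s ≤ 4 B (2 + c + d + L) ^ 2` (`l ≤ 2 + c + d + L`) and `s + 1 ≤ B' l`;
finally `blk (s + 1) ≤ (s + 1) ^ 2 2 ^ (s + 2)` (`blk_le`). -/
theorem arith2 (α : ℝ) (hα : 0 < α) : ∃ A : ℝ, 0 < A ∧ ∀ c d n : ℕ, 1 ≤ c → 1 ≤ d → 2 ≤ n →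
    ∃ s b : ℕ, b < (s + 1) ^ 2 ∧ b / (s + 1) + b % (s + 1) ≤ s ∧
      8 * c ≤ 2 ^ (b / (s + 1)) * 2 ^ (b % (s + 1)) ∧
      2 * d ≤ 2 ^ (b % (s + 1)) * NN s b ∧
      (2 * Real.sqrt (2 ^ (b % (s + 1)) * Real.exp (-(2 : ℝ) ^ (b / (s + 1))))) ^ NN s b ≤
        (n : ℝ) ^ (-(α + 1)) ∧
      (blk (s + 1) : ℝ) ≤ A * ((c + d + Real.log n + Real.sqrt (c * d * Real.log n)) *
        Real.log (2 + c + d + Real.log n) ^ 3) := by
  refine ⟨4 * 822 ^ 2 * 272 * (α + 1) ^ 3, by positivity, ?_⟩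
  intro c d n hc hd hn
  have hcR : (1 : ℝ) ≤ c := by exact_mod_cast hc
  have hdR : (1 : ℝ) ≤ d := by exact_mod_cast hd
  have hnR : (2 : ℝ) ≤ n := by exact_mod_cast hn
  have hn0 : (0 : ℝ) < n := by linarith
  have hL2 : 0.6931471803 < Real.log n :=
    lt_of_lt_of_le Real.log_two_gt_d9 (Real.log_le_log (by norm_num) hnR)
  set L : ℝ := Real.log n with hL
  have hL0 : 0 < L := by linarith
  set s0 : ℝ := 2 + c + d + L with hs0
  have hs1 : 4.69 ≤ s0 := by
    rw [hs0]
    linarith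
  have hs00 : 0 < s0 := by linarith
  set l : ℝ := Real.log s0 with hl
  have hl1 : 3 / 2 ≤ l := by
    rw [hl, Real.le_log_iff_exp_le hs00]
    have h1 : Real.exp (3 / 2) ≤ 4.69 := by
      have h2 : Real.exp (3 / 2) ^ 2 ≤ 4.69 ^ 2 := by
        rw [← Real.exp_nat_mul]
        have h3 : ((2 : ℕ) : ℝ) * (3 / 2) = ((3 : ℕ) : ℝ) * 1 := by norm_num
        rw [h3, Real.exp_nat_mul]
        calc Real.exp 1 ^ 3 ≤ 2.7182818286 ^ 3 :=
              pow_le_pow_left₀ (Real.exp_pos _).le Real.exp_one_lt_d9.le 3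
          _ ≤ 4.69 ^ 2 := by norm_num
      exact le_of_pow_le_pow_left₀ (by norm_num) (by norm_num) h2
    linarith
  have hls : l ≤ s0 := by
    have := Real.log_le_sub_one_of_pos hs00
    rw [hl]
    linarith
  have hexp : Real.exp l = s0 := by rw [hl, Real.exp_log hs00]
  obtain ⟨i, m, r, h1, h2, h3, h4⟩ := choice3 (α + 1) c d L l (by linarith) hcR hdR hL0 hl1
    (by rw [hexp, hs0]; linarith)
  have hdiv : (i * (i + r + m + 1) + r) / (i + r + m + 1) = i := by
    rw [Nat.mul_comm, Nat.mul_add_div (Nat.succ_pos _), Nat.div_eq_of_lt (by omega), Nat.add_zero]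
  have hmod : (i * (i + r + m + 1) + r) % (i + r + m + 1) = r := by
    rw [Nat.mul_comm, Nat.mul_add_mod, Nat.mod_eq_of_lt (by omega)]
  have hNN : NN (i + r + m) (i * (i + r + m + 1) + r) = 2 ^ m := by
    unfold NN
    rw [hdiv, hmod]
    congr 1
    omega
  refine ⟨i + r + m, i * (i + r + m + 1) + r, ?_, ?_, ?_, ?_, ?_, ?_⟩
  · have h5 : i * (i + r + m + 1) + r < (i + 1) * (i + r + m + 1) := by
      rw [Nat.add_mul, Nat.one_mul]
      omega
    have h6 : (i + 1) * (i + r + m + 1) ≤ (i + r + m + 1) * (i + r + m + 1) :=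
      Nat.mul_le_mul_right _ (by omega)
    rw [pow_two]
    omega
  · rw [hdiv, hmod]
    omega
  · rw [hdiv, hmod]
    exact_mod_cast h1
  · rw [hmod, hNN]
    exact_mod_cast h2
  · rw [hdiv, hmod, hNN, Real.rpow_def_of_pos hn0]
    have h5 : Real.log n * -(α + 1) = -((α + 1) * L) := by
      rw [hL]
      ring
    rw [h5]
    exact h3
  · set Q : ℝ := Real.sqrt (c * d * L) with hQ
    have hQ0 : 0 ≤ Q := Real.sqrt_nonneg _
    set s : ℕ := i + r + m with hs
    have hQs : Q ≤ s0 ^ 2 := by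
      rw [hQ, Real.sqrt_le_left (by positivity)]
      have e1 : (c : ℝ) ≤ s0 := by rw [hs0]; linarith
      have e2 : (d : ℝ) ≤ s0 := by rw [hs0]; linarith
      have e3 : L ≤ s0 := by rw [hs0]; linarith
      have e4 : (c : ℝ) * d ≤ s0 * s0 := mul_le_mul e1 e2 (by linarith) hs00.le
      have e5 : (c : ℝ) * d * L ≤ s0 * s0 * s0 := mul_le_mul e4 e3 hL0.le (by positivity)
      have e6 : s0 * s0 * s0 ≤ s0 * s0 * s0 * s0 := le_mul_of_one_le_right (by positivity) (by linarith)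
      calc (c : ℝ) * d * L ≤ s0 * s0 * s0 * s0 := e5.trans e6
        _ = (s0 ^ 2) ^ 2 := by ring
    have hT : (c : ℝ) + d + L + Q ≤ 2 * s0 ^ 2 := by
      have e1 : (c : ℝ) + d + L ≤ s0 := by rw [hs0]; linarith
      have e2 : s0 ≤ s0 ^ 2 := by nlinarith
      linarith
    have hT0 : 0 ≤ (c : ℝ) + d + L + Q := by positivity
    have ha1 : 1 ≤ α + 1 := by linarith
    have hpow : (2 : ℝ) ^ s ≤ 544 * (α + 1) * s0 ^ 3 := by
      calc (2 : ℝ) ^ s ≤ 272 * (α + 1) * l * (c + d + L + Q) := h4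
        _ ≤ 272 * (α + 1) * s0 * (2 * s0 ^ 2) := by
            apply mul_le_mul _ hT hT0 (by positivity)
            exact mul_le_mul_of_nonneg_left hls (by positivity)
        _ = 544 * (α + 1) * s0 ^ 3 := by ring
    have hsl : (s : ℝ) + 1 ≤ 822 * (α + 1) * l := by
      have e1 : (s : ℝ) * Real.log 2 ≤ Real.log (544 * (α + 1) * s0 ^ 3) := by
        rw [← Real.log_pow]
        exact Real.log_le_log (by positivity) hpow
      rw [Real.log_mul (by positivity) (by positivity), Real.log_pow, ← hl] at e1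
      have e2 : Real.log (544 * (α + 1)) ≤ 544 * (α + 1) - 1 :=
        Real.log_le_sub_one_of_pos (by positivity)
      have e3 := Real.log_two_gt_d9
      have e4 : (s : ℝ) * (2 / 3) ≤ (s : ℝ) * Real.log 2 :=
        mul_le_mul_of_nonneg_left (by linarith) (by positivity)
      push_cast at e1
      have e5 : α + 1 ≤ (α + 1) * l := le_mul_of_one_le_right (by linarith) (by linarith)
      have e6 : l ≤ (α + 1) * l := le_mul_of_one_le_left (by linarith) ha1
      have e7 : 1 ≤ (α + 1) * l := by linarith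
      have e8 : 822 * (α + 1) * l = 822 * ((α + 1) * l) := by ring
      rw [e8]
      linarith
    have hblk : (blk (s + 1) : ℝ) ≤ ((s : ℝ) + 1) ^ 2 * (4 * 2 ^ s) := by
      have e1 : ((blk (s + 1) : ℕ) : ℝ) ≤ (((s + 1) ^ 2 * 2 ^ (s + 2) : ℕ) : ℝ) := by
        exact_mod_cast blk_le s
      push_cast at e1
      have e2 : (2 : ℝ) ^ (s + 2) = 4 * 2 ^ s := by
        rw [pow_add]
        ring
      rw [e2] at e1
      exact e1
    calc (blk (s + 1) : ℝ) ≤ ((s : ℝ) + 1) ^ 2 * (4 * 2 ^ s) := hblk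
      _ ≤ (822 * (α + 1) * l) ^ 2 * (4 * (272 * (α + 1) * l * (c + d + L + Q))) := by
          apply mul_le_mul _ _ (by positivity) (by positivity)
          · exact pow_le_pow_left₀ (by positivity) hsl 2
          · exact mul_le_mul_of_nonneg_left h4 (by norm_num)
      _ = 4 * 822 ^ 2 * 272 * (α + 1) ^ 3 * ((c + d + L + Q) * l ^ 3) := by ring

end Pool.Agent.PR0225.Own
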