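import Pool.Agent.Lib_MP_0225c1.Own.Chern

open MeasureTheory ProbabilityTheory
open scoped ENNReal

namespace Pool.Agent.PR0225.Own

open Classical in
/-- **BADCARD.** Union bound over the `R` edges, from `chern`. -/
theorem bad_card {E : Type} {n : ℕ} (p : Fin n → List E) (hp : ∀ i, (p i).Nodup) (i : Fin n)
    {F R : ℕ} (hR : 0 < R) (h8 : ∀ e ∈ p i, 8 * cong p e ≤ F * R) :
    ((Finset.univ.filter fun X : Fin n → Fin R =>
        BadF F R p i (fun q => (X q : ℕ))).card : ℝ) ≤
      (R * Real.exp (-(F : ℝ))) * (R : ℝ) ^ n := by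
  have h1 : (Finset.univ.filter fun X : Fin n → Fin R => BadF F R p i (fun q => (X q : ℕ))) ⊆
      (Finset.range R).biUnion (fun k => Finset.univ.filter fun X : Fin n → Fin R =>
        ∃ e, (p i)[k]? = some e ∧ F ≤ cnt2 p (fun q => (X q : ℕ)) i e ((X i : ℕ) + k)) := by
    intro X hX
    obtain ⟨k, hk, e, he, hF⟩ := (Finset.mem_filter.1 hX).2
    exact Finset.mem_biUnion.2 ⟨k, Finset.mem_range.2 hk, Finset.mem_filter.2
      ⟨Finset.mem_univ _, e, he, hF⟩⟩
  have h2 : ∀ k ∈ Finset.range R, ((Finset.univ.filter fun X : Fin n → Fin R =>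
        ∃ e, (p i)[k]? = some e ∧ F ≤ cnt2 p (fun q => (X q : ℕ)) i e ((X i : ℕ) + k)).card : ℝ) ≤
      Real.exp (-(F : ℝ)) * (R : ℝ) ^ n := by
    intro k _
    by_cases hk : k < (p i).length
    · have h3 := chern p hp i (p i)[k] k (F := F) hR (h8 _ (List.getElem_mem hk))
      refine le_trans ?_ h3
      rw [Nat.cast_le]
      refine Finset.card_le_card fun X hX => ?_
      obtain ⟨e, he, hF⟩ := (Finset.mem_filter.1 hX).2
      rw [List.getElem?_eq_getElem hk, Option.some.injEq] at he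
      subst he
      exact Finset.mem_filter.2 ⟨Finset.mem_univ _, hF⟩
    · have h3 : (Finset.univ.filter fun X : Fin n → Fin R =>
        ∃ e, (p i)[k]? = some e ∧ F ≤ cnt2 p (fun q => (X q : ℕ)) i e ((X i : ℕ) + k)) = ∅ := by
        refine Finset.filter_eq_empty_iff.2 fun X _ => ?_
        rintro ⟨e, he, _⟩
        rw [List.getElem?_eq_none (not_lt.1 hk)] at he
        exact Option.some_ne_none e he.symm
      rw [h3, Finset.card_empty, Nat.cast_zero]
      positivity
  calc ((Finset.univ.filter fun X : Fin n → Fin R =>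
        BadF F R p i (fun q => (X q : ℕ))).card : ℝ)
      ≤ (((Finset.range R).biUnion (fun k => Finset.univ.filter fun X : Fin n → Fin R =>
        ∃ e, (p i)[k]? = some e ∧ F ≤ cnt2 p (fun q => (X q : ℕ)) i e ((X i : ℕ) + k))).card : ℝ) := by
        rw [Nat.cast_le]
        exact Finset.card_le_card h1
    _ ≤ ∑ k ∈ Finset.range R, ((Finset.univ.filter fun X : Fin n → Fin R =>
        ∃ e, (p i)[k]? = some e ∧ F ≤ cnt2 p (fun q => (X q : ℕ)) i e ((X i : ℕ) + k)).card : ℝ) := by
        rw [← Nat.cast_sum, Nat.cast_le]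
        exact Finset.card_biUnion_le
    _ ≤ ∑ k ∈ Finset.range R, Real.exp (-(F : ℝ)) * (R : ℝ) ^ n := Finset.sum_le_sum h2
    _ = (R * Real.exp (-(F : ℝ))) * (R : ℝ) ^ n := by
        rw [Finset.sum_const, Finset.card_range, nsmul_eq_mul, mul_assoc]

end Pool.Agent.PR0225.Own
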