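import Pool.Agent.Lib_MP_0225c1.Own.Defs

open MeasureTheory ProbabilityTheory
open scoped ENNReal

namespace Pool.Agent.PR0225.Own

private theorem hit_unique {E : Type} {l : List E} (hl : l.Nodup) {e : E} {R : ℕ} {τ : ℕ}
    {x y : Fin R} (hx : ∃ k, l[k]? = some e ∧ (x : ℕ) + k = τ)
    (hy : ∃ k, l[k]? = some e ∧ (y : ℕ) + k = τ) : x = y := by
  obtain ⟨k, hk, hk'⟩ := hx
  obtain ⟨k2, hk2, hk2'⟩ := hy
  have h1 : k = k2 := by
    have hlt : k < l.length := by
      by_contra h
      rw [List.getElem?_eq_none (not_lt.1 h)] at hk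
      exact absurd hk (by simp)
    exact (List.getElem?_inj hlt hl).1 (hk.trans hk2.symm)
  subst h1
  exact Fin.ext (by omega)

open Classical in
private theorem sum_hit {E : Type} {l : List E} (hl : l.Nodup) (e : E) (R τ : ℕ) (c : ℝ)
    (hc : 1 ≤ c) :
    (∑ x : Fin R, if ∃ k, l[k]? = some e ∧ (x : ℕ) + k = τ then c else 1) ≤
      R + (if e ∈ l then c - 1 else 0) := by
  have h1 : (∑ x : Fin R, if ∃ k, l[k]? = some e ∧ (x : ℕ) + k = τ then c else 1) =
      R + (c - 1) * ((Finset.univ.filter fun x : Fin R =>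
        ∃ k, l[k]? = some e ∧ (x : ℕ) + k = τ).card : ℝ) := by
    have h2 : ∀ x : Fin R, (if ∃ k, l[k]? = some e ∧ (x : ℕ) + k = τ then c else 1) =
        1 + (c - 1) * (if ∃ k, l[k]? = some e ∧ (x : ℕ) + k = τ then 1 else 0) := by
      intro x
      split_ifs
      · ring
      · ring
    rw [Finset.sum_congr rfl fun x _ => h2 x, Finset.sum_add_distrib, ← Finset.mul_sum,
      Finset.sum_boole]
    simp
  rw [h1]
  have hcard : (Finset.univ.filter fun x : Fin R =>
      ∃ k, l[k]? = some e ∧ (x : ℕ) + k = τ).card ≤ 1 := by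
    rw [Finset.card_le_one]
    intro x hx y hy
    rw [Finset.mem_filter] at hx hy
    exact hit_unique hl hx.2 hy.2
  by_cases he : e ∈ l
  · rw [if_pos he]
    have h3 : ((Finset.univ.filter fun x : Fin R =>
        ∃ k, l[k]? = some e ∧ (x : ℕ) + k = τ).card : ℝ) ≤ 1 := by exact_mod_cast hcard
    nlinarith
  · rw [if_neg he]
    have h3 : (Finset.univ.filter fun x : Fin R =>
        ∃ k, l[k]? = some e ∧ (x : ℕ) + k = τ) = ∅ := by
      rw [Finset.filter_eq_empty_iff]
      rintro x _ ⟨k, hk, _⟩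
      exact he (List.mem_of_getElem? hk)
    rw [h3]
    simp

open Classical in
/-- **CHERN.** Chernoff bound for one edge and one frame.

Proof. For real weights: if `F ≤ cnt2` then `1 ≤ exp (2 (cnt2 - F))`. Fix the value `a` of `X i`
(factor `R` in the end). A packet `q ≠ i` hits iff `∃ k', (p q)[k']? = some e ∧ X q + k' = a + k`;
since `p q` has no duplicates this happens for at most one value of `X q`, and for none if `e` is not
in `p q`. So with `w q x = exp 2` if `q ≠ i` and `x` hits, `1` if not, `w i x = 1` if `x = a`, else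
`0`: the number is at most `exp (-2 F) Σ_a Σ_X Π_q w q (X q) = exp (-2 F) Σ_a Π_q Σ_x w q x
(Finset.prod_univ_sum) ≤ exp (-2 F) * R * Π_{q ≠ i} (R + (exp 2 - 1) [e ∈ p q])
≤ exp (-2 F) R ^ n exp ((exp 2 - 1) cong p e / R) ≤ exp (-2 F) R ^ n exp (F)`, since `exp 2 ≤ 9` and
`8 cong ≤ F R`. -/
theorem chern {E : Type} {n : ℕ} (p : Fin n → List E) (hp : ∀ i, (p i).Nodup) (i : Fin n) (e : E)
    (k : ℕ) {F R : ℕ} (hR : 0 < R) (h8 : 8 * cong p e ≤ F * R) :
    ((Finset.univ.filter fun X : Fin n → Fin R =>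
        F ≤ cnt2 p (fun q => (X q : ℕ)) i e ((X i : ℕ) + k)).card : ℝ) ≤
      Real.exp (-(F : ℝ)) * (R : ℝ) ^ n := by
  have hR0 : (0 : ℝ) < R := by exact_mod_cast hR
  have he2 : Real.exp 2 ≤ 9 := by
    have h1 : Real.exp 2 = Real.exp 1 * Real.exp 1 := by
      rw [← Real.exp_add]
      norm_num
    have h2 := Real.exp_one_lt_d9
    have h3 := Real.exp_pos 1
    rw [h1]
    nlinarith
  have he1 : 1 ≤ Real.exp 2 := Real.one_le_exp (by norm_num)
  -- the weights
  let hit : Fin R → Fin n → Fin R → Prop := fun a q x =>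
    ∃ k', (p q)[k']? = some e ∧ (x : ℕ) + k' = (a : ℕ) + k
  let w : Fin R → Fin n → Fin R → ℝ := fun a q x =>
    if q = i then (if x = a then 1 else 0) else (if hit a q x then Real.exp 2 else 1)
  have hw0 : ∀ a q x, 0 ≤ w a q x := by
    intro a q x
    simp only [w]
    split_ifs
    · exact zero_le_one
    · exact le_rfl
    · exact (Real.exp_pos 2).le
    · exact zero_le_one
  -- the product of the weights
  have hprod : ∀ X : Fin n → Fin R, ∏ q, w (X i) q (X q) =
      Real.exp (2 * (cnt2 p (fun q => (X q : ℕ)) i e ((X i : ℕ) + k) : ℝ)) := by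
    intro X
    have h1 : ∀ q, w (X i) q (X q) = if q ≠ i ∧ hit (X i) q (X q) then Real.exp 2 else 1 := by
      intro q
      simp only [w]
      by_cases hq : q = i
      · subst hq
        rw [if_pos rfl, if_pos rfl, if_neg (fun h => h.1 rfl)]
      · rw [if_neg hq]
        by_cases hh : hit (X i) q (X q)
        · rw [if_pos hh, if_pos ⟨hq, hh⟩]
        · rw [if_neg hh, if_neg (fun h => hh h.2)]
    rw [Finset.prod_congr rfl fun q _ => h1 q, Finset.prod_ite, Finset.prod_const,
      Finset.prod_const_one, mul_one, mul_comm, Real.exp_nat_mul]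
    rfl
  -- Markov
  have hmark : ∀ X : Fin n → Fin R,
      (if F ≤ cnt2 p (fun q => (X q : ℕ)) i e ((X i : ℕ) + k) then (1 : ℝ) else 0) ≤
        Real.exp (-(2 * F)) * ∑ a, ∏ q, w a q (X q) := by
    intro X
    have h1 : ∏ q, w (X i) q (X q) ≤ ∑ a, ∏ q, w a q (X q) :=
      Finset.single_le_sum (f := fun a => ∏ q, w a q (X q))
        (fun a _ => Finset.prod_nonneg fun q _ => hw0 a q (X q)) (Finset.mem_univ (X i))
    split_ifs with h
    · have h2 : (F : ℝ) ≤ (cnt2 p (fun q => (X q : ℕ)) i e ((X i : ℕ) + k) : ℝ) := by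
        exact_mod_cast h
      rw [hprod] at h1
      calc (1 : ℝ) = Real.exp (-(2 * F)) * Real.exp (2 * F) := by
            rw [← Real.exp_add]
            simp
        _ ≤ Real.exp (-(2 * F)) *
            Real.exp (2 * (cnt2 p (fun q => (X q : ℕ)) i e ((X i : ℕ) + k) : ℝ)) := by
            refine mul_le_mul_of_nonneg_left ?_ (Real.exp_pos _).le
            exact Real.exp_le_exp.2 (by linarith)
        _ ≤ _ := mul_le_mul_of_nonneg_left h1 (Real.exp_pos _).le
    · exact mul_nonneg (Real.exp_pos _).le (Finset.sum_nonneg fun a _ =>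
        Finset.prod_nonneg fun q _ => hw0 a q (X q))
  -- the sum of the weights
  have hfac : ∀ a, ∏ q, ∑ x, w a q x ≤
      (R : ℝ)⁻¹ * ((R : ℝ) ^ n * Real.exp F) := by
    intro a
    have h1 : ∀ q, ∑ x, w a q x ≤
        (if q = i then (R : ℝ)⁻¹ else 1) *
          (R * Real.exp ((if e ∈ p q then Real.exp 2 - 1 else 0) / R)) := by
      intro q
      by_cases hq : q = i
      · have h2 : ∑ x, w a q x = 1 := by
          simp only [w]
          rw [Finset.sum_congr rfl fun x _ => if_pos hq, Finset.sum_ite_eq' Finset.univ a,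
            if_pos (Finset.mem_univ a)]
        rw [h2, if_pos hq, ← mul_assoc, inv_mul_cancel₀ hR0.ne', one_mul]
        refine Real.one_le_exp (div_nonneg ?_ hR0.le)
        split_ifs
        · linarith
        · exact le_rfl
      · have h2 : ∑ x, w a q x ≤ R + (if e ∈ p q then Real.exp 2 - 1 else 0) := by
          simp only [w]
          rw [Finset.sum_congr rfl fun x _ => if_neg hq]
          exact sum_hit (hp q) e R ((a : ℕ) + k) (Real.exp 2) he1
        rw [if_neg hq, one_mul]
        refine h2.trans ?_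
        have h3 := Real.add_one_le_exp ((if e ∈ p q then Real.exp 2 - 1 else 0) / (R : ℝ))
        have h4 := mul_le_mul_of_nonneg_left h3 hR0.le
        refine le_trans (le_of_eq ?_) h4
        field_simp
        ring
    refine (Finset.prod_le_prod (fun q _ => Finset.sum_nonneg fun x _ => hw0 a q x)
      fun q _ => h1 q).trans ?_
    rw [Finset.prod_mul_distrib, Finset.prod_ite_eq' Finset.univ i, if_pos (Finset.mem_univ i),
      Finset.prod_mul_distrib, Finset.prod_const, Finset.card_univ, Fintype.card_fin,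
      ← Real.exp_sum]
    refine mul_le_mul_of_nonneg_left ?_ (inv_pos.2 hR0).le
    refine mul_le_mul_of_nonneg_left ?_ (pow_pos hR0 n).le
    refine Real.exp_le_exp.2 ?_
    rw [← Finset.sum_div, Finset.sum_ite, Finset.sum_const_zero, add_zero, Finset.sum_const,
      nsmul_eq_mul, div_le_iff₀ hR0]
    have h5 : ((Finset.univ.filter fun q => e ∈ p q).card : ℝ) = (cong p e : ℝ) := rfl
    rw [h5]
    have h6 : (8 : ℝ) * cong p e ≤ F * R := by exact_mod_cast h8
    have h7 : (0 : ℝ) ≤ cong p e := Nat.cast_nonneg _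
    nlinarith
  calc ((Finset.univ.filter fun X : Fin n → Fin R =>
        F ≤ cnt2 p (fun q => (X q : ℕ)) i e ((X i : ℕ) + k)).card : ℝ)
      = ∑ X : Fin n → Fin R,
          (if F ≤ cnt2 p (fun q => (X q : ℕ)) i e ((X i : ℕ) + k) then (1 : ℝ) else 0) := by
        rw [Finset.sum_boole]
    _ ≤ ∑ X : Fin n → Fin R, Real.exp (-(2 * F)) * ∑ a, ∏ q, w a q (X q) :=
        Finset.sum_le_sum fun X _ => hmark X
    _ = Real.exp (-(2 * F)) * ∑ a, ∏ q, ∑ x, w a q x := by
        rw [← Finset.mul_sum, Finset.sum_comm]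
        congr 1
        refine Finset.sum_congr rfl fun a _ => ?_
        rw [Finset.prod_univ_sum, Fintype.piFinset_univ]
    _ ≤ Real.exp (-(2 * F)) * ∑ _a : Fin R, (R : ℝ)⁻¹ * ((R : ℝ) ^ n * Real.exp F) := by
        refine mul_le_mul_of_nonneg_left (Finset.sum_le_sum fun a _ => hfac a) (Real.exp_pos _).le
    _ = Real.exp (-(F : ℝ)) * (R : ℝ) ^ n := by
        rw [Finset.sum_const, Finset.card_univ, Fintype.card_fin, nsmul_eq_mul, ← mul_assoc (R : ℝ),
          mul_inv_cancel₀ hR0.ne', one_mul, mul_comm ((R : ℝ) ^ n), ← mul_assoc, ← Real.exp_add]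
        congr 2
        ring

end Pool.Agent.PR0225.Own
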