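import Pool.Agent.Lib_MP_0225c1.Defs

/-!
# MP_0225c1_lc, second theorem (own congestion): definitions

The strategy `frm`: time is divided into blocks, sub-blocks and phases. In a phase of type `(i, r)`
(`F = 2 ^ i`, `R = 2 ^ r`, duration `2 R F`) every packet draws a random frame `X < R` and then tries
to cross one edge per frame (a frame has `F` steps), starting with frame `X`. A packet which does not
cross an edge in its frame waits until the end of the phase. An edge forwards in every step the
eligible packet with the smallest name. Sub-block `b` of block `s` consists of `N = 2 ^ (s - i - r)`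
phases of type `(i, r) = (b / (s + 1), b % (s + 1))` (if `i + r ≤ s`, otherwise nothing happens);
every sub-block of block `s` has duration `2 ^ (s + 1)`, and block `s` has `(s + 1) ^ 2` sub-blocks.
-/

open MeasureTheory ProbabilityTheory
open scoped ENNReal

namespace Pool.Agent.PR0225.Own

/-- own congestion of packet `i`: the maximal congestion of an edge of its path -/
noncomputable def ownCong {E : Type} {n : ℕ} (p : Fin n → List E) (i : Fin n) : ℕ :=
  sSup {m | ∃ e ∈ p i, m = cong p e}

/-! ## The schedule -/

/-- start of block `s` -/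
def blk (s : ℕ) : ℕ := ∑ s' ∈ Finset.range s, (s' + 1) ^ 2 * 2 ^ (s' + 1)

/-- block of time `t` -/
def bs (t : ℕ) : ℕ := Nat.findGreatest (fun s => blk s ≤ t) t

/-- time since the start of the block -/
def off (t : ℕ) : ℕ := t - blk (bs t)

/-- first parameter of the phase of time `t`: frames have `2 ^ ii t` steps -/
def ii (t : ℕ) : ℕ := off t / 2 ^ (bs t + 1) / (bs t + 1)

/-- second parameter of the phase of time `t`: `2 ^ rr t` possible first frames -/
def rr (t : ℕ) : ℕ := off t / 2 ^ (bs t + 1) % (bs t + 1)

/-- time since the start of the phase -/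
def io (t : ℕ) : ℕ := off t % 2 ^ (bs t + 1) % 2 ^ (ii t + rr t + 1)

/-- start of the phase of time `t` -/
def st (t : ℕ) : ℕ := t - io t

/-- number of the frame of time `t` within its phase -/
def fr (t : ℕ) : ℕ := io t / 2 ^ ii t

/-- start of the phase number `k` of the sub-block `b` of block `s` -/
def T0 (s b k : ℕ) : ℕ := blk s + b * 2 ^ (s + 1) + k * 2 ^ (b / (s + 1) + b % (s + 1) + 1)

/-- number of the phases of the sub-block `b` of block `s` -/
def NN (s b : ℕ) : ℕ := 2 ^ (s - b / (s + 1) - b % (s + 1))

/-! ## The strategy -/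

/-- random number of one packet for the phase which starts at time `t` -/
abbrev PS2 (t : ℕ) : Type := Fin (2 ^ rr t)

/-- seeds -/
abbrev Sd2 : Type := (t : ℕ) → PS2 t

instance (t : ℕ) : NeZero (2 ^ rr t) := ⟨(Nat.two_pow_pos _).ne'⟩

/-- law of the random number for one phase: uniform -/
noncomputable def ps2Law (t : ℕ) : Measure (PS2 t) := uniformOn Set.univ

instance (t : ℕ) : IsProbabilityMeasure (ps2Law t) :=
  isProbabilityMeasure_uniformOn Set.finite_univ Set.univ_nonempty

/-- number of the edges which a packet has crossed in the current phase -/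
def cr {E : Type} (t : ℕ) (x : Info E Sd2) : ℕ :=
  x.hist.length - (x.hist.filter (fun s => decide (s < st t))).length

/-- A packet may move in its frames only: in frame `X + k` it crosses its edge number `k` (counted
from the start of the phase). -/
def elig {E : Type} (t : ℕ) (x : Info E Sd2) : Prop :=
  ii t + rr t ≤ bs t ∧ (x.seed (st t) : ℕ) + cr t x = fr t

open Classical in
/-- the forwarding rule: the eligible packet with the smallest name -/
noncomputable def frmFwd (E : Type) (t : ℕ) (S : Set (Info E Sd2)) (e : E) : Option ℕ :=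
  if h : ∃ x ∈ S, x.next = some e ∧ elig t x ∧
      ∀ y ∈ S, y.next = some e → elig t y → x.id ≤ y.id then
    some h.choose.id
  else none

/-- the strategy -/
noncomputable def frm : Strategy where
  Seed := Sd2
  mS := inferInstance
  law := Measure.infinitePi ps2Law
  prob := inferInstance
  fwd := frmFwd

/-! ## One phase -/

/-- A run of one phase: `x τ i` is the number of the edges which packet `i` has crossed after `τ`
steps, `X i` its first frame. -/
structure FrameRun {E : Type} {n : ℕ} (F R : ℕ) (p : Fin n → List E) (X : Fin n → ℕ)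
    (x : ℕ → Fin n → ℕ) : Prop where
  zero : ∀ i, x 0 i = 0
  step : ∀ τ < 2 * (R * F), ∀ i,
    x (τ + 1) i = x τ i ∨ (x (τ + 1) i = x τ i + 1 ∧ X i + x τ i = τ / F)
  greedy : ∀ τ < 2 * (R * F), ∀ i, x τ i < (p i).length → X i + x τ i = τ / F →
    ∃ i', (p i')[x τ i']? = (p i)[x τ i]? ∧ x (τ + 1) i' = x τ i' + 1

open Classical in
/-- number of the packets `q ≠ i` whose schedule has edge `e` in frame `τ` -/
noncomputable def cnt2 {E : Type} {n : ℕ} (p : Fin n → List E) (X : Fin n → ℕ) (i : Fin n)
    (e : E) (τ : ℕ) : ℕ :=
  (Finset.univ.filter fun q => q ≠ i ∧ ∃ k, (p q)[k]? = some e ∧ X q + k = τ).card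

/-- remaining paths -/
def rest {G : Net} {n : ℕ} (C : Coll G n) (h : Fin n → List ℕ) (i : Fin n) : List G.E :=
  (C.path i).drop (h i).length

/-- Packet `i` may fail in a phase: at some edge on its way at least `F` other packets have this
edge in the same frame. -/
def BadF {E : Type} {n : ℕ} (F R : ℕ) (p : Fin n → List E) (i : Fin n) (X : Fin n → ℕ) : Prop :=
  ∃ k < R, ∃ e, (p i)[k]? = some e ∧ F ≤ cnt2 p X i e (X i + k)

/-- Packet `i` may fail in phase `k` of the sub-block `b` of block `s`. -/
def Bd2 {G : Net} {n : ℕ} (C : Coll G n) (i : Fin n) (s b k : ℕ) (ω : Fin n → Sd2) : Prop :=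
  BadF (2 ^ (b / (s + 1))) (2 ^ (b % (s + 1))) (rest C (hist C frm ω (T0 s b k))) i
    (fun q => (ω q (T0 s b k) : ℕ))

/-- the random numbers of all packets for the phase which starts at time `t` are replaced -/
def upd {n : ℕ} (ω : Fin n → Sd2) (t : ℕ) (η : Fin n → PS2 t) : Fin n → Sd2 :=
  fun i => Function.update (ω i) t (η i)

end Pool.Agent.PR0225.Own
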