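import Pool.Agent.Lib_MP_0225c1.Own.Defs

open MeasureTheory ProbabilityTheory
open scoped ENNReal

namespace Pool.Agent.PR0225.Own

/-- **FRAME.** A packet which meets less than `F` other packets in each of its frames moves as
planned.

Proof. Claim: for `k ≤ min R (p i).length`, `x ((X i + k) * F) i = k`. Base `k = 0`: for
`τ < X i * F` we have `τ / F < X i`, so the second case of `step` is impossible and `x` stays `0`.
Step `k → k + 1` (`k < R`, `k < length`, let `e` be the edge number `k` of `p i`): consider the
frame, the steps `τ` in `[(X i + k) F, (X i + k + 1) F)`, in which `τ / F = X i + k`. If `i` moves in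
one of them then `x` becomes `k + 1` and stays so until the end of the frame (`step`). Otherwise
`x τ i = k` in the whole frame, and `greedy` gives for each of the `F` steps `τ` a packet `q τ` with
`(p (q τ))[x τ (q τ)]? = some e`, `x (τ + 1) (q τ) = x τ (q τ) + 1`, so by `step`
`X (q τ) + x τ (q τ) = τ / F = X i + k`. `q τ ≠ i` (as `i` does not move), and the `q τ` are distinct:
if `q τ = q τ' = q`, `τ < τ'`, then `x τ' q ≥ x τ q + 1`, contradiction to
`X q + x τ' q = X q + x τ q`. So `cnt2 p X i e (X i + k) ≥ F`, contradiction. All the steps used are
less than `(X i + R) F < 2 R F`. Finally `x` is monotone in time. -/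
theorem frame_ok {E : Type} {n F R : ℕ} {p : Fin n → List E} {X : Fin n → ℕ}
    {x : ℕ → Fin n → ℕ} (hx : FrameRun F R p X x) (hF : 0 < F) (i : Fin n) (hX : X i < R)
    (h : ¬ BadF F R p i X) : min R (p i).length ≤ x (2 * (R * F)) i := by
  classical
  have hmono : ∀ q : Fin n, ∀ τ τ' : ℕ, τ ≤ τ' → τ' ≤ 2 * (R * F) → x τ q ≤ x τ' q := by
    intro q τ τ' h1
    induction τ', h1 using Nat.le_induction with
    | base => intro _; exact le_rfl
    | succ m hm ih =>
      intro h2
      have h3 := ih (by omega)
      rcases hx.step m (by omega) q with h4 | ⟨h4, _⟩
      · rw [h4]; exact h3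
      · rw [h4]; omega
  have hbase : ∀ τ ≤ X i * F, x τ i = 0 := by
    intro τ
    induction τ with
    | zero => intro _; exact hx.zero i
    | succ m ih =>
      intro h1
      have h2 := ih (by omega)
      have h3 : X i * F ≤ R * F := Nat.mul_le_mul_right F hX.le
      rcases hx.step m (by omega) i with h4 | ⟨_, h5⟩
      · rw [h4, h2]
      · exfalso
        have h6 : m / F < X i := (Nat.div_lt_iff_lt_mul hF).2 (by omega)
        omega
  have key : ∀ k ≤ min R (p i).length, x ((X i + k) * F) i = k := by
    intro k
    induction k with
    | zero => intro _; exact hbase _ (by rw [Nat.add_zero])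
    | succ k ih =>
      intro hk
      have h0 := ih (by omega)
      have hkR : k < R := by
        have := min_le_left R (p i).length
        omega
      have hkL : k < (p i).length := by
        have := min_le_right R (p i).length
        omega
      have hend : (X i + (k + 1)) * F = (X i + k) * F + F := by ring
      have hbound : (X i + k) * F + F ≤ 2 * (R * F) := by
        have h1 : (X i + (k + 1)) * F ≤ (2 * R) * F := Nat.mul_le_mul_right F (by omega)
        rw [← hend, ← mul_assoc]
        exact h1
      have hdiv : ∀ s < F, ((X i + k) * F + s) / F = X i + k := by
        intro s hs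
        rw [mul_comm, Nat.mul_add_div hF, Nat.div_eq_of_lt hs, Nat.add_zero]
      have hdich : ∀ s ≤ F, x ((X i + k) * F + s) i = k ∨ x ((X i + k) * F + s) i = k + 1 := by
        intro s
        induction s with
        | zero => intro _; exact Or.inl h0
        | succ s ihs =>
          intro hs
          have h1 := ihs (by omega)
          rcases hx.step ((X i + k) * F + s) (by omega) i with h4 | ⟨h4, h5⟩
          · rw [← Nat.add_assoc, h4]; exact h1
          · rw [hdiv s (by omega)] at h5
            rcases h1 with h1 | h1
            · right; rw [← Nat.add_assoc, h4, h1]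
            · omega
      rw [hend]
      rcases hdich F le_rfl with hA | hA
      · exfalso
        have hall : ∀ s ≤ F, x ((X i + k) * F + s) i = k := by
          intro s hs
          have h1 := hmono i ((X i + k) * F + s) ((X i + k) * F + F) (by omega) hbound
          rcases hdich s hs with h2 | h2
          · exact h2
          · omega
        have hg : ∀ s, ∃ q : Fin n, s < F → ((p q)[x ((X i + k) * F + s) q]? = (p i)[k]? ∧
            x ((X i + k) * F + s + 1) q = x ((X i + k) * F + s) q + 1) := by
          intro s
          by_cases hs : s < F
          · obtain ⟨q, h1, h2⟩ := hx.greedy ((X i + k) * F + s) (by omega) i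
              (by rw [hall s hs.le]; exact hkL) (by rw [hall s hs.le, hdiv s hs])
            rw [hall s hs.le] at h1
            exact ⟨q, fun _ => ⟨h1, h2⟩⟩
          · exact ⟨i, fun h' => absurd h' hs⟩
        choose q hq using hg
        have hqX : ∀ s < F, X (q s) + x ((X i + k) * F + s) (q s) = X i + k := by
          intro s hs
          rcases hx.step ((X i + k) * F + s) (by omega) (q s) with h4 | ⟨_, h5⟩
          · have := (hq s hs).2
            omega
          · rw [h5, hdiv s hs]
        have hinj : ∀ s s', s < s' → s' < F → q s ≠ q s' := by
          intro s s' hss hs' he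
          have h1 := hqX s (by omega)
          have h2 := hqX s' hs'
          have h3 := (hq s (by omega)).2
          have h4 := hmono (q s) ((X i + k) * F + s + 1) ((X i + k) * F + s') (by omega) (by omega)
          rw [← he] at h2
          omega
        apply h
        refine ⟨k, hkR, (p i)[k], List.getElem?_eq_getElem hkL, ?_⟩
        unfold cnt2
        have h5 : (Finset.range F).card ≤ (Finset.univ.filter fun q' => q' ≠ i ∧
            ∃ k', (p q')[k']? = some (p i)[k] ∧ X q' + k' = X i + k).card := by
          refine Finset.card_le_card_of_injOn q ?_ ?_
          · intro s hs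
            have hs' : s < F := Finset.mem_range.1 (Finset.mem_coe.1 hs)
            rw [Finset.mem_coe, Finset.mem_filter]
            refine ⟨Finset.mem_univ _, ?_, x ((X i + k) * F + s) (q s), ?_, hqX s hs'⟩
            · intro hqi
              have h6 := (hq s hs').2
              rw [hqi, Nat.add_assoc, hall (s + 1) (by omega), hall s hs'.le] at h6
              omega
            · rw [(hq s hs').1, List.getElem?_eq_getElem hkL]
          · intro s hs s' hs' he
            have h1 : s < F := Finset.mem_range.1 (Finset.mem_coe.1 hs)
            have h2 : s' < F := Finset.mem_range.1 (Finset.mem_coe.1 hs')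
            rcases lt_trichotomy s s' with h3 | h3 | h3
            · exact absurd he (hinj s s' h3 h2)
            · exact h3
            · exact absurd he.symm (hinj s' s h3 h1)
        rw [Finset.card_range] at h5
        convert h5
      · exact hA
  have h1 := key _ le_rfl
  have h2 : (X i + min R (p i).length) * F ≤ 2 * (R * F) := by
    rw [← mul_assoc]
    have := min_le_left R (p i).length
    exact Nat.mul_le_mul_right F (by omega)
  have h3 := hmono i _ _ h2 le_rfl
  rw [h1] at h3
  exact h3

end Pool.Agent.PR0225.Own
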