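import Pool.Agent.Lib_MP_0225c1.Own.Hist

open MeasureTheory ProbabilityTheory
open scoped ENNReal

namespace Pool.Agent.PR0225.Own

variable {G : Net} {n : ℕ}

theorem own_mem_present {C : Coll G n} {ω : Fin n → Sd2} {h : Fin n → List ℕ} {e : G.E}
    {i : Fin n} (hi : (info C ω h i).next = some e) :
    info C ω h i ∈ present C ω h (G.src e) :=
  ⟨i, rfl, e, hi, rfl⟩

/-- **F1.** The packet chosen by the forwarding rule (compare `edfFwd_iff` in
`Pool/Agent/Lib_MP_0225c1/Fwd.lean`): the packets which wait for `e` are in
`present C ω h (G.src e)`, their names are different. -/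
theorem frmFwd_iff (C : Coll G n) (ω : Fin n → Sd2) (h : Fin n → List ℕ) (t : ℕ) (e : G.E)
    (i : Fin n) :
    frmFwd G.E t (present C ω h (G.src e)) e = some i.val ↔
      (info C ω h i).next = some e ∧ elig t (info C ω h i) ∧
        ∀ i', (info C ω h i').next = some e → elig t (info C ω h i') → i ≤ i' := by
  unfold frmFwd
  constructor
  · intro h1
    split_ifs at h1 with h2
    obtain ⟨h3, h4, h5, h5'⟩ := h2.choose_spec
    have h6 : h2.choose.id = i.val := Option.some.inj h1
    obtain ⟨i0, h7, _⟩ := h3
    have h8 : i0 = i := by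
      apply Fin.ext
      rw [← h6, h7]
      rfl
    subst h8
    rw [← h7]
    refine ⟨h4, h5, fun i' hi' hel' => ?_⟩
    have h9 := h5' _ (own_mem_present hi') hi' hel'
    rw [h7] at h9
    exact h9
  · rintro ⟨h1, h1', h2⟩
    have h3 : ∃ x ∈ present C ω h (G.src e), x.next = some e ∧ elig t x ∧
        ∀ y ∈ present C ω h (G.src e), y.next = some e → elig t y → x.id ≤ y.id := by
      refine ⟨info C ω h i, own_mem_present h1, h1, h1', ?_⟩
      rintro y ⟨i', rfl, _⟩ hy hel
      exact h2 i' hy hel
    rw [dif_pos h3]
    have hsp := h3.choose_spec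
    generalize h3.choose = x at hsp ⊢
    obtain ⟨⟨i0, rfl, _⟩, h5, h5', h6⟩ := hsp
    have h7 := h6 _ (own_mem_present h1) h1 h1'
    have h9 : i.val ≤ i0.val := h2 i0 h5 h5'
    have h10 : (info C ω h i).id = i.val := rfl
    have h11 : (info C ω h i0).id = i0.val := rfl
    have h12 : (info C ω h i0).id = i.val := by omega
    exact congrArg some h12

/-- **F2.** If some eligible packet waits for `e`, some packet is chosen. -/
theorem frmFwd_exists (C : Coll G n) (ω : Fin n → Sd2) (h : Fin n → List ℕ) (t : ℕ) (e : G.E)
    (i : Fin n) (hi : (info C ω h i).next = some e) (hel : elig t (info C ω h i)) :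
    ∃ i', (info C ω h i').next = some e ∧
      frmFwd G.E t (present C ω h (G.src e)) e = some i'.val := by
  classical
  obtain ⟨i', h1, h2⟩ := Finset.exists_min_image
    (Finset.univ.filter fun i' : Fin n => (info C ω h i').next = some e ∧ elig t (info C ω h i'))
    (fun i' => i') ⟨i, by simp [hi, hel]⟩
  obtain ⟨h3, h4⟩ : (info C ω h i').next = some e ∧ elig t (info C ω h i') :=
    (Finset.mem_filter.1 h1).2
  refine ⟨i', h3, ?_⟩
  rw [frmFwd_iff]
  exact ⟨h3, h4, fun i'' hi'' hel'' => h2 i'' (by simp [hi'', hel''])⟩

/-- **F3.** The histories at time `t` depend only on the random numbers with index less than `t`.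
Proof: induction on `t`; in step `t` the rule uses the random numbers with index `st t ≤ t`. -/
theorem hist_causal2 (C : Coll G n) (ω ω' : Fin n → Sd2) (t : ℕ)
    (h : ∀ i, ∀ j < t, ω i j = ω' i j) : hist C frm ω t = hist C frm ω' t := by
  induction t with
  | zero =>
    funext i
    simp [hist]
  | succ t ih =>
    have h1 := ih (fun i j hj => h i j (by omega))
    have h2 : st t < t + 1 := by
      unfold st
      omega
    have hel : ∀ (H : Fin n → List ℕ) (i : Fin n),
        elig t (info C ω H i) ↔ elig t (info C ω' H i) := by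
      intro H i
      have h3 : (info C ω H i).seed (st t) = (info C ω' H i).seed (st t) := h i _ h2
      unfold elig
      rw [h3]
      exact Iff.rfl
    have hc : ∀ (H : Fin n → List ℕ) (i : Fin n) (e : G.E),
        Crosses C frm ω H t i e ↔ Crosses C frm ω' H t i e := by
      intro H i e
      have h4 := frmFwd_iff C ω H t e i
      have h5 := frmFwd_iff C ω' H t e i
      have h6 : frmFwd G.E t (present C ω H (G.src e)) e = some i.val ↔
          frmFwd G.E t (present C ω' H (G.src e)) e = some i.val := by
        rw [h4, h5]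
        refine and_congr Iff.rfl (and_congr (hel H i) (forall_congr' fun i' => ?_))
        exact imp_congr Iff.rfl (imp_congr (hel H i') Iff.rfl)
      exact and_congr Iff.rfl h6
    funext i
    rw [hist, hist, ← h1]
    by_cases h7 : ∃ e, Crosses C frm ω (hist C frm ω t) t i e
    · have h8 : ∃ e, Crosses C frm ω' (hist C frm ω t) t i e :=
        h7.imp fun e he => (hc _ i e).1 he
      rw [if_pos h7, if_pos h8]
    · have h8 : ¬ ∃ e, Crosses C frm ω' (hist C frm ω t) t i e :=
        fun h9 => h7 (h9.imp fun e he => (hc _ i e).2 he)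
      rw [if_neg h7, if_neg h8]

end Pool.Agent.PR0225.Own
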