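import Pool.Agent.Lib_MP_0225c1.Own.Defs

open MeasureTheory ProbabilityTheory
open scoped ENNReal

namespace Pool.Agent.PR0225.Own

variable {G : Net} {n : ℕ}

/-- **H1.** The histories grow by at most one entry, the current time (any strategy). Compare
`hist_succ` in `Pool/Agent/Lib_MP_0225c1/Fwd.lean`, which is the case `σ = edf`. -/
theorem hist_succ' (C : Coll G n) (σ : Strategy) (ω : Fin n → σ.Seed) (t : ℕ) (i : Fin n) :
    (hist C σ ω (t + 1) i = hist C σ ω t i ++ [t] ∧
        ∃ e, Crosses C σ ω (hist C σ ω t) t i e) ∨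
      (hist C σ ω (t + 1) i = hist C σ ω t i ∧
        ¬ ∃ e, Crosses C σ ω (hist C σ ω t) t i e) := by
  by_cases h : ∃ e, Crosses C σ ω (hist C σ ω t) t i e
  · left
    refine ⟨?_, h⟩
    rw [hist, if_pos h]
  · right
    refine ⟨?_, h⟩
    rw [hist, if_neg h]

/-- **H2.** -/
theorem hist_length' (C : Coll G n) (σ : Strategy) (ω : Fin n → σ.Seed) (t : ℕ) (i : Fin n) :
    (hist C σ ω t i).length ≤ (C.path i).length := by
  induction t with
  | zero => simp [hist]
  | succ t ih =>
    rcases hist_succ' C σ ω t i with ⟨h1, e, h2⟩ | ⟨h1, _⟩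
    · rw [h1, List.length_append, List.length_singleton]
      have h3 : (C.path i)[(hist C σ ω t i).length]? = some e := h2.1
      obtain ⟨h4, _⟩ := List.getElem?_eq_some_iff.1 h3
      omega
    · rw [h1]
      exact ih

theorem hist_lt' (C : Coll G n) (σ : Strategy) (ω : Fin n → σ.Seed) (t : ℕ) (i : Fin n) :
    ∀ r ∈ hist C σ ω t i, r < t := by
  induction t with
  | zero => simp [hist]
  | succ t ih =>
    rcases hist_succ' C σ ω t i with ⟨h1, _⟩ | ⟨h1, _⟩
    · rw [h1]
      intro r hr
      rw [List.mem_append, List.mem_singleton] at hr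
      rcases hr with hr | hr
      · have := ih r hr
        omega
      · omega
    · rw [h1]
      intro r hr
      have := ih r hr
      omega

/-- **H3.** The crossings before time `s` are the history at time `s`. -/
theorem hist_filter' (C : Coll G n) (σ : Strategy) (ω : Fin n → σ.Seed) (s t : ℕ) (hst : s ≤ t)
    (i : Fin n) :
    (hist C σ ω t i).filter (fun r => decide (r < s)) = hist C σ ω s i := by
  induction t, hst using Nat.le_induction with
  | base =>
    rw [List.filter_eq_self]
    intro r hr
    exact decide_eq_true (hist_lt' C σ ω s i r hr)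
  | succ t ht ih =>
    rcases hist_succ' C σ ω t i with ⟨h1, _⟩ | ⟨h1, _⟩
    · rw [h1, List.filter_append, ih]
      have h2 : ¬ t < s := by omega
      simp [h2]
    · rw [h1, ih]

/-- **H4.** -/
theorem hist_mono' (C : Coll G n) (σ : Strategy) (ω : Fin n → σ.Seed) (s t : ℕ) (hst : s ≤ t)
    (i : Fin n) : (hist C σ ω s i).length ≤ (hist C σ ω t i).length := by
  rw [← hist_filter' C σ ω s t hst i]
  exact List.length_filter_le _ _

end Pool.Agent.PR0225.Own
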