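import Pool.Agent.Lib_MP_0225c1.Own.Defs

open MeasureTheory ProbabilityTheory
open scoped ENNReal

namespace Pool.Agent.PR0225.Own

theorem own_cong_le {E : Type} {n : ℕ} (p : Fin n → List E) (e : E) : cong p e ≤ n := by
  classical
  unfold cong
  refine (Finset.card_le_univ _).trans ?_
  rw [Fintype.card_fin]

/-- **OC1.** (the set in the definition is bounded by `n`) -/
theorem le_ownCong {E : Type} {n : ℕ} (p : Fin n → List E) (i : Fin n) {e : E} (he : e ∈ p i) :
    cong p e ≤ ownCong p i := by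
  refine le_csSup ⟨n, ?_⟩ ⟨e, he, rfl⟩
  rintro m ⟨e', _, rfl⟩
  exact own_cong_le p e'

/-- **OC2.** -/
theorem one_le_ownCong {E : Type} {n : ℕ} (p : Fin n → List E) (i : Fin n) (h : p i ≠ []) :
    1 ≤ ownCong p i := by
  classical
  obtain ⟨f, hf⟩ := List.exists_mem_of_ne_nil _ h
  refine le_trans ?_ (le_ownCong p i hf)
  unfold cong
  refine Finset.card_pos.2 ⟨i, ?_⟩
  rw [Finset.mem_filter]
  exact ⟨Finset.mem_univ i, hf⟩

/-- **OC3.** Dropping initial edges of the paths only makes `cong` smaller. -/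
theorem cong_drop_le {E : Type} {n : ℕ} (p : Fin n → List E) (r : Fin n → ℕ) (e : E) :
    cong (fun i => (p i).drop (r i)) e ≤ cong p e := by
  classical
  unfold cong
  refine Finset.card_le_card fun i hi => ?_
  rw [Finset.mem_filter] at hi ⊢
  exact ⟨hi.1, List.mem_of_mem_drop hi.2⟩

end Pool.Agent.PR0225.Own
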