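import Pool.Agent.Lib_MP_0225c1.Own.Resample

open MeasureTheory ProbabilityTheory
open scoped ENNReal

namespace Pool.Agent.PR0225.Own

/-- A function which depends only on the coordinates `< J` is measurable. -/
theorem seq_meas {n : ℕ} (J : ℕ) (Ψ : (Fin n → Sd2) → ℝ≥0∞)
    (hΨ : ∀ ω ω' : Fin n → Sd2, (∀ i, ∀ j < J, ω i j = ω' i j) → Ψ ω = Ψ ω') : Measurable Ψ := by
  let r : (Fin n → Sd2) → (Fin n → (j : Fin J) → PS2 j) := fun ω i j => ω i j
  let x : (Fin n → (j : Fin J) → PS2 j) → (Fin n → Sd2) := fun q i j =>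
    if h : j < J then q i ⟨j, h⟩ else 0
  have h1 : Ψ = (Ψ ∘ x) ∘ r := by
    funext ω
    apply hΨ
    intro i j hj
    show ω i j = if h : j < J then ω i j else 0
    rw [dif_pos hj]
  rw [h1]
  refine (Measurable.of_discrete).comp ?_
  refine measurable_pi_lambda _ fun i => measurable_pi_lambda _ fun j => ?_
  exact (measurable_pi_apply (j : ℕ)).comp (measurable_pi_apply i)

open Classical in
/-- the weight of phase `k` -/
noncomputable def seqW {n : ℕ} (G : ℕ → (Fin n → Sd2) → Prop) (f : ℝ) (k : ℕ)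
    (ω : Fin n → Sd2) : ℝ≥0∞ := if G k ω then ENNReal.ofReal (1 / f) else 1

theorem seq_w {n : ℕ} (t : ℕ → ℕ) (G : ℕ → (Fin n → Sd2) → Prop)
    (hG : ∀ k, ∀ ω ω' : Fin n → Sd2, (∀ i, ∀ j ≤ t k, ω i j = ω' i j) → G k ω → G k ω')
    (f : ℝ) (k : ℕ) (ω ω' : Fin n → Sd2) (h : ∀ i, ∀ j ≤ t k, ω i j = ω' i j) :
    seqW G f k ω = seqW G f k ω' := by
  have h1 : G k ω ↔ G k ω' := ⟨hG k ω ω' h, hG k ω' ω fun i j hj => (h i j hj).symm⟩
  unfold seqW
  by_cases h2 : G k ω
  · rw [if_pos h2, if_pos (h1.1 h2)]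
  · rw [if_neg h2, if_neg fun h3 => h2 (h1.2 h3)]

theorem seq_prod {n : ℕ} (t : ℕ → ℕ) (ht : ∀ k, t k < t (k + 1)) (G : ℕ → (Fin n → Sd2) → Prop)
    (hG : ∀ k, ∀ ω ω' : Fin n → Sd2, (∀ i, ∀ j ≤ t k, ω i j = ω' i j) → G k ω → G k ω')
    (f : ℝ) (m : ℕ) (ω ω' : Fin n → Sd2) (h : ∀ i, ∀ j < t m, ω i j = ω' i j) :
    ∏ k ∈ Finset.range m, seqW G f k ω = ∏ k ∈ Finset.range m, seqW G f k ω' := by
  refine Finset.prod_congr rfl fun k hk => seq_w t G hG f k ω ω' fun i j hj => h i j ?_
  exact hj.trans_lt (strictMono_nat_of_lt_succ ht (Finset.mem_range.1 hk))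

open Classical in
theorem seq_lint {n N : ℕ} (t : ℕ → ℕ) (ht : ∀ k, t k < t (k + 1)) (G : ℕ → (Fin n → Sd2) → Prop)
    (hG : ∀ k, ∀ ω ω' : Fin n → Sd2, (∀ i, ∀ j ≤ t k, ω i j = ω' i j) → G k ω → G k ω')
    (f : ℝ) (hf : 0 < f) (hc : ∀ k < N, ∀ ω : Fin n → Sd2,
      ((Finset.univ.filter fun η : Fin n → PS2 (t k) => G k (upd ω (t k) η)).card : ℝ) ≤
        f * Fintype.card (Fin n → PS2 (t k))) (m : ℕ) (hm : m ≤ N) :
    ∫⁻ ω, ∏ k ∈ Finset.range m, seqW G f k ω
      ∂(Measure.pi fun _ : Fin n => Measure.infinitePi ps2Law) ≤ 2 ^ m := by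
  induction m with
  | zero => simp
  | succ m ih =>
    have h1 := lint_upd (t m) (t m + 1) (fun ω : Fin n → Sd2 =>
      ∏ k ∈ Finset.range (m + 1), seqW G f k ω) (fun ω ω' h => by
        show ∏ k ∈ Finset.range (m + 1), seqW G f k ω = ∏ k ∈ Finset.range (m + 1), seqW G f k ω'
        rw [Finset.prod_range_succ, Finset.prod_range_succ,
          seq_prod t ht G hG f m ω ω' (fun i j hj => h i j (by omega)),
          seq_w t G hG f m ω ω' (fun i j hj => h i j (by omega))])
    rw [h1]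
    have h2 : ∀ ω : Fin n → Sd2, (∑ η : Fin n → PS2 (t m),
        ∏ k ∈ Finset.range (m + 1), seqW G f k (upd ω (t m) η)) /
          (Fintype.card (Fin n → PS2 (t m)) : ℝ≥0∞) ≤
        (∏ k ∈ Finset.range m, seqW G f k ω) * 2 := by
      intro ω
      have h3 : ∀ η : Fin n → PS2 (t m), ∏ k ∈ Finset.range (m + 1), seqW G f k (upd ω (t m) η) =
          (∏ k ∈ Finset.range m, seqW G f k ω) * seqW G f m (upd ω (t m) η) := by
        intro η
        rw [Finset.prod_range_succ]
        congr 1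
        refine seq_prod t ht G hG f m _ _ fun i j hj => ?_
        show Function.update (ω i) (t m) (η i) j = ω i j
        rw [Function.update_of_ne (by omega)]
      have h4 : ∑ η : Fin n → PS2 (t m), seqW G f m (upd ω (t m) η) ≤
          2 * (Fintype.card (Fin n → PS2 (t m)) : ℝ≥0∞) := by
        have h5 : ∀ η : Fin n → PS2 (t m), seqW G f m (upd ω (t m) η) ≤
            1 + if G m (upd ω (t m) η) then ENNReal.ofReal (1 / f) else 0 := by
          intro η
          unfold seqW
          split_ifs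
          · exact le_add_self
          · simp
        refine (Finset.sum_le_sum fun η _ => h5 η).trans ?_
        rw [Finset.sum_add_distrib, Finset.sum_const, Finset.card_univ, nsmul_eq_mul, mul_one,
          two_mul]
        refine add_le_add_right ?_ _
        rw [← Finset.sum_filter, Finset.sum_const, nsmul_eq_mul,
          ← ENNReal.ofReal_natCast, ← ENNReal.ofReal_natCast (Fintype.card _),
          ← ENNReal.ofReal_mul (Nat.cast_nonneg _)]
        refine ENNReal.ofReal_le_ofReal ?_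
        rw [mul_one_div, div_le_iff₀ hf, mul_comm]
        exact hc m (by omega) ω
      rw [Finset.sum_congr rfl fun η _ => h3 η, ← Finset.mul_sum]
      have h6 : (Fintype.card (Fin n → PS2 (t m)) : ℝ≥0∞) ≠ 0 := by
        rw [Ne, Nat.cast_eq_zero]
        exact Fintype.card_ne_zero
      have h7 : (Fintype.card (Fin n → PS2 (t m)) : ℝ≥0∞) ≠ ⊤ := ENNReal.natCast_ne_top _
      rw [ENNReal.div_le_iff h6 h7, mul_assoc]
      exact mul_le_mul_right h4 _
    refine (lintegral_mono h2).trans ?_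
    rw [lintegral_mul_const' _ _ (by norm_num), pow_succ]
    exact mul_le_mul_left (ih (by omega)) _

open Classical in
/-- **SEQ.** Many bad phases are unlikely. `G k ω` depends only on the coordinates `≤ t k`, and for
every past the fraction of the values of the coordinate `t k` for which `G k` holds is at most `f`.

Proof. If `1 ≤ f` the right side is at least `1`. Let `0 < f < 1` and
`W k ω = ENNReal.ofReal (1 / f)` if `G k ω`, `1` otherwise. Claim: `∫⁻ Π_{k < m} W k ≤ 2 ^ m` for
`m ≤ N`. Induction: by `lint_upd` for `t m` and `J = t m + 1`,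
`∫⁻ Π_{k < m + 1} W k = ∫⁻ Π_{k < m} W k ω * (Σ_η W m (upd ω (t m) η)) / card` (the first factors
depend only on coordinates `≤ t (m - 1) < t m`), and the last factor is at most `1 + (1 / f) f = 2`.
On the set in question the product (for `m = N`) is `(1 / f) ^ (number of k with G k) ≥
(1 / f) ^ (N / 2)`, so Markov's inequality (`mul_meas_ge_le_lintegral`, the function is measurable
as it depends on finitely many discrete coordinates; or `meas_ge_le_lintegral_div`) gives
`2 ^ N * f ^ (N / 2) = (2 √f) ^ N`. -/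
theorem seq {n N : ℕ} (t : ℕ → ℕ) (ht : ∀ k, t k < t (k + 1)) (G : ℕ → (Fin n → Sd2) → Prop)
    (hG : ∀ k, ∀ ω ω' : Fin n → Sd2, (∀ i, ∀ j ≤ t k, ω i j = ω' i j) → G k ω → G k ω')
    (f : ℝ) (hf : 0 < f) (hc : ∀ k < N, ∀ ω : Fin n → Sd2,
      ((Finset.univ.filter fun η : Fin n → PS2 (t k) => G k (upd ω (t k) η)).card : ℝ) ≤
        f * Fintype.card (Fin n → PS2 (t k))) :
    Measure.pi (fun _ : Fin n => Measure.infinitePi ps2Law)
      {ω | N ≤ 2 * ((Finset.range N).filter fun k => G k ω).card} ≤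
      ENNReal.ofReal ((2 * Real.sqrt f) ^ N) := by
  rcases le_or_gt 1 f with hf1 | hf1
  · refine prob_le_one.trans ?_
    rw [← ENNReal.ofReal_one]
    refine ENNReal.ofReal_le_ofReal (one_le_pow₀ ?_)
    have h1 : 1 ≤ Real.sqrt f := Real.one_le_sqrt.2 hf1
    linarith
  · set s := Real.sqrt f with hs
    have hs0 : 0 < s := Real.sqrt_pos.2 hf
    have hs1 : s ≤ 1 := Real.sqrt_le_one.2 hf1.le
    have hss : s ^ 2 = f := Real.sq_sqrt hf.le
    have h1 := seq_lint t ht G hG f hf hc N le_rfl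
    have h2 : Measurable fun ω : Fin n → Sd2 => ∏ k ∈ Finset.range N, seqW G f k ω :=
      seq_meas (t N) _ fun ω ω' h => seq_prod t ht G hG f N ω ω' (fun i j hj => h i j hj)
    have h3 : ENNReal.ofReal ((1 / s) ^ N) *
        (Measure.pi (fun _ : Fin n => Measure.infinitePi ps2Law)
        {ω | N ≤ 2 * ((Finset.range N).filter fun k => G k ω).card}) ≤ 2 ^ N := by
      refine le_trans ?_ ((mul_meas_ge_le_lintegral h2 (ENNReal.ofReal ((1 / s) ^ N))).trans h1)
      refine mul_le_mul_right (measure_mono fun ω hω => ?_) _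
      have h4 : N ≤ 2 * ((Finset.range N).filter fun k => G k ω).card := hω
      show ENNReal.ofReal ((1 / s) ^ N) ≤ ∏ k ∈ Finset.range N, seqW G f k ω
      unfold seqW
      rw [Finset.prod_ite, Finset.prod_const, Finset.prod_const, one_pow, mul_one,
        ← ENNReal.ofReal_pow (by positivity)]
      refine ENNReal.ofReal_le_ofReal ?_
      rw [← hss, ← one_div_pow, ← pow_mul]
      refine pow_le_pow_right₀ ?_ h4
      rw [le_div_iff₀ hs0, one_mul]
      exact hs1
    generalize Measure.pi (fun _ : Fin n => Measure.infinitePi ps2Law)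
        {ω | N ≤ 2 * ((Finset.range N).filter fun k => G k ω).card} = M at h3 ⊢
    have h4 : ENNReal.ofReal (s ^ N) * ENNReal.ofReal ((1 / s) ^ N) = 1 := by
      rw [← ENNReal.ofReal_mul (by positivity), ← mul_pow, mul_one_div_cancel hs0.ne', one_pow,
        ENNReal.ofReal_one]
    calc M = ENNReal.ofReal (s ^ N) * (ENNReal.ofReal ((1 / s) ^ N) * M) := by
          rw [← mul_assoc, h4, one_mul]
      _ ≤ ENNReal.ofReal (s ^ N) * 2 ^ N := mul_le_mul_right h3 _
      _ = ENNReal.ofReal ((2 * s) ^ N) := by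
          have h5 : (2 : ℝ≥0∞) ^ N = ENNReal.ofReal (2 ^ N) := by
            rw [ENNReal.ofReal_pow (by norm_num), ENNReal.ofReal_ofNat]
          rw [h5, ← ENNReal.ofReal_mul (by positivity), ← mul_pow, mul_comm s 2]

end Pool.Agent.PR0225.Own
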