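import Pool.Agent.Lib_MP_0225c1.Own.Prog
import Pool.Agent.Lib_MP_0225c1.Own.Seq
import Pool.Agent.Lib_MP_0225c1.Own.BadCard
import Pool.Agent.Lib_MP_0225c1.Own.OwnC

open MeasureTheory ProbabilityTheory
open scoped ENNReal

namespace Pool.Agent.PR0225.Own

/-- **LATE2.** One packet, one sub-block.

Proof. If `i` has not arrived then by `prog` at least half of the phases are bad; apply `seq` with
`t k = T0 s b k` (`T0_succ`), `G k ω = Bd2 C i s b k ω`, `f = R * exp (-F)`. `hG`: by `hist_causal2`
`hist C frm ω (T0 s b k)` depends only on the coordinates `< T0 s b k`. `hc`: for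
`ω' = upd ω (T0 s b k) η` the history at `T0 s b k` is that of `ω` and the random numbers are `η`, so
the count is that of `bad_card` for the remaining paths (whose congestion at the edges of `rest i` is
at most `ownCong`, `cong_drop_le`, `le_ownCong`), with `R = 2 ^ rr (T0 s b k)` (`sched`, `τ = 0`). -/
theorem late_prob2 {G : Net} {n : ℕ} (C : Coll G n) (i : Fin n) {s b : ℕ}
    (hb : b < (s + 1) ^ 2) (hir : b / (s + 1) + b % (s + 1) ≤ s)
    (hd : 2 * (C.path i).length ≤ 2 ^ (b % (s + 1)) * NN s b)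
    (h8 : 8 * ownCong C.path i ≤ 2 ^ (b / (s + 1)) * 2 ^ (b % (s + 1))) :
    Measure.pi (fun _ : Fin n => Measure.infinitePi ps2Law)
      {ω | ¬ Arrived C frm ω (T0 s b (NN s b)) i} ≤
      ENNReal.ofReal ((2 * Real.sqrt (2 ^ (b % (s + 1)) *
        Real.exp (-(2 : ℝ) ^ (b / (s + 1))))) ^ NN s b) := by
  classical
  have hht : ∀ k, T0 s b k < T0 s b (k + 1) := by
    intro k
    rw [T0_succ]
    have h1 : 0 < 2 ^ (b % (s + 1)) * 2 ^ (b / (s + 1)) := by positivity
    omega
  have hf : (0 : ℝ) < 2 ^ (b % (s + 1)) * Real.exp (-(2 : ℝ) ^ (b / (s + 1))) := by positivity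
  have hG : ∀ k, ∀ ω ω' : Fin n → Sd2, (∀ i, ∀ j ≤ T0 s b k, ω i j = ω' i j) →
      Bd2 C i s b k ω → Bd2 C i s b k ω' := by
    intro k ω ω' h hB
    have h1 : hist C frm ω (T0 s b k) = hist C frm ω' (T0 s b k) :=
      hist_causal2 C ω ω' _ (fun i j hj => h i j hj.le)
    have h2 : (fun q => (ω q (T0 s b k) : ℕ)) = fun q => (ω' q (T0 s b k) : ℕ) := by
      funext q
      rw [h q _ le_rfl]
    unfold Bd2 at hB ⊢
    rw [← h1, ← h2]
    exact hB
  have hc : ∀ k < NN s b, ∀ ω : Fin n → Sd2,
      ((Finset.univ.filter fun η : Fin n → PS2 (T0 s b k) =>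
        Bd2 C i s b k (upd ω (T0 s b k) η)).card : ℝ) ≤
        (2 ^ (b % (s + 1)) * Real.exp (-(2 : ℝ) ^ (b / (s + 1)))) *
          Fintype.card (Fin n → PS2 (T0 s b k)) := by
    intro k hk ω
    have hr : rr (T0 s b k) = b % (s + 1) := by
      have h := (sched (τ := 0) hb hir hk (by positivity)).2.2.1
      rwa [add_zero] at h
    have hcg : ∀ e ∈ rest C (hist C frm ω (T0 s b k)) i,
        8 * cong (rest C (hist C frm ω (T0 s b k))) e ≤
          2 ^ (b / (s + 1)) * 2 ^ rr (T0 s b k) := by
      intro e he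
      rw [hr]
      have h1 : e ∈ C.path i := List.mem_of_mem_drop he
      have h2 : cong (rest C (hist C frm ω (T0 s b k))) e ≤ cong C.path e :=
        cong_drop_le C.path (fun q => (hist C frm ω (T0 s b k) q).length) e
      have h3 := le_ownCong C.path i h1
      omega
    have hnd : ∀ q, (rest C (hist C frm ω (T0 s b k)) q).Nodup := fun q =>
      (C.nodup q).sublist (List.drop_sublist _ _)
    have hb1 := bad_card (rest C (hist C frm ω (T0 s b k))) hnd i
      (F := 2 ^ (b / (s + 1))) (R := 2 ^ rr (T0 s b k)) (by positivity) hcg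
    have hsub : (Finset.univ.filter fun η : Fin n → PS2 (T0 s b k) =>
        Bd2 C i s b k (upd ω (T0 s b k) η)) ⊆
        Finset.univ.filter fun X : Fin n → Fin (2 ^ rr (T0 s b k)) =>
          BadF (2 ^ (b / (s + 1))) (2 ^ rr (T0 s b k)) (rest C (hist C frm ω (T0 s b k))) i
            (fun q => (X q : ℕ)) := by
      intro η hη
      rw [Finset.mem_filter] at hη ⊢
      refine ⟨Finset.mem_univ _, ?_⟩
      have h0 := hη.2
      have h1 : hist C frm (upd ω (T0 s b k) η) (T0 s b k) = hist C frm ω (T0 s b k) := by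
        refine hist_causal2 C _ _ _ (fun q j hj => ?_)
        exact Function.update_of_ne hj.ne _ _
      have h2 : (fun q => ((upd ω (T0 s b k) η) q (T0 s b k) : ℕ)) = fun q => (η q : ℕ) := by
        funext q
        have : (upd ω (T0 s b k) η) q (T0 s b k) = η q := Function.update_self _ _ _
        rw [this]
      unfold Bd2 at h0
      have h3 : 2 ^ (b % (s + 1)) = 2 ^ rr (T0 s b k) := by rw [hr]
      rw [h1, h2, h3] at h0
      exact h0
    have hle : ((Finset.univ.filter fun η : Fin n → PS2 (T0 s b k) =>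
        Bd2 C i s b k (upd ω (T0 s b k) η)).card : ℝ) ≤
        ((Finset.univ.filter fun X : Fin n → Fin (2 ^ rr (T0 s b k)) =>
          BadF (2 ^ (b / (s + 1))) (2 ^ rr (T0 s b k)) (rest C (hist C frm ω (T0 s b k))) i
            (fun q => (X q : ℕ))).card : ℝ) := by
      exact_mod_cast Finset.card_le_card hsub
    refine hle.trans ?_
    have hcard : (Fintype.card (Fin n → PS2 (T0 s b k)) : ℝ) = ((2 ^ rr (T0 s b k) : ℕ) : ℝ) ^ n := by
      rw [Fintype.card_fun, Fintype.card_fin, Fintype.card_fin]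
      push_cast
      rfl
    rw [hcard]
    refine le_trans (le_of_eq ?_) (hb1.trans (le_of_eq ?_))
    · congr
    · rw [hr]
      push_cast
      ring
  refine (measure_mono ?_).trans (seq (T0 s b) hht (fun k ω => Bd2 C i s b k ω) hG _ hf hc)
  intro ω hω
  by_contra h
  exact hω (prog C ω i hb hir hd (not_le.1 h))

end Pool.Agent.PR0225.Own
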