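import Pool.Agent.Lib_MP_0225c1.Own.All

open MeasureTheory ProbabilityTheory
open scoped ENNReal

namespace Pool.Agent.PR0225.Own

variable {n : ℕ}

theorem union_all2 (μ : Measure (Fin n → Sd2)) (P : (Fin n → Sd2) → Fin n → Prop)
    (B : Fin n → Set (Fin n → Sd2)) (hB : ∀ i ω, ω ∉ B i → P ω i) :
    μ {ω | ¬ ∀ i, P ω i} ≤ ∑ i, μ (B i) := by
  refine le_trans (measure_mono ?_) (measure_iUnion_fintype_le μ B)
  intro ω hω
  by_contra hcon
  exact hω fun i => hB i ω fun hi => hcon (Set.mem_iUnion.2 ⟨i, hi⟩)

theorem pi_prob2 : IsProbabilityMeasure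
    (Measure.pi (fun _ : Fin n => (Measure.infinitePi ps2Law : Measure Sd2))) := by
  infer_instance

/-- **MAIN2.** There is an oblivious strategy such that
for every `α > 0` there is `A` such that, for every network and every collection of `n` paths without
repeated edges, with probability at least `1 - n ^ (-α)` every packet `i` arrives within
`A (c + d + log n + √(c d log n)) ℓ ^ 3` steps, where `c` is its own congestion, `d` the length of its
own path and `ℓ = log (2 + c + d + log n)`. -/
theorem main2 : ∃ σ : Strategy, ∀ α : ℝ, 0 < α → ∃ A : ℝ, ∀ (G : Net) (n : ℕ) (C : Coll G n),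
    (@Measure.pi (Fin n) (fun _ => σ.Seed) _ (fun _ => σ.mS) (fun _ => σ.law))
      {ω | ¬ ∀ i : Fin n, ∃ t : ℕ,
        (t : ℝ) ≤ A * ((ownCong C.path i + (C.path i).length + Real.log n +
          Real.sqrt (ownCong C.path i * (C.path i).length * Real.log n)) *
          Real.log (2 + ownCong C.path i + (C.path i).length + Real.log n) ^ 3) ∧
        Arrived C σ ω t i} ≤ ENNReal.ofReal ((n : ℝ) ^ (-α)) := by
  refine ⟨frm, fun α hα => ?_⟩
  obtain ⟨A, hA0, hA⟩ := arith2 α hα
  refine ⟨A, fun G n C => ?_⟩
  change Measure.pi (fun _ : Fin n => (Measure.infinitePi ps2Law : Measure Sd2)) _ ≤ _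
  have hprob := pi_prob2 (n := n)
  rcases Nat.lt_or_ge n 2 with hn | hn
  · interval_cases n
    · -- no packets
      refine le_trans (union_all2 _ (fun ω i => _) (fun i => i.elim0) fun i => i.elim0) ?_
      simp
    · refine le_trans prob_le_one ?_
      simp
  -- at least two packets
  have key : ∀ i : Fin n, ∃ B : Set (Fin n → Sd2),
      Measure.pi (fun _ : Fin n => (Measure.infinitePi ps2Law : Measure Sd2)) B ≤
        ENNReal.ofReal ((n : ℝ) ^ (-(α + 1))) ∧
      ∀ ω, ω ∉ B → ∃ t : ℕ,
        (t : ℝ) ≤ A * ((ownCong C.path i + (C.path i).length + Real.log n +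
          Real.sqrt (ownCong C.path i * (C.path i).length * Real.log n)) *
          Real.log (2 + ownCong C.path i + (C.path i).length + Real.log n) ^ 3) ∧
        Arrived C frm ω t i := by
    intro i
    have hlogn : 0 ≤ Real.log n := Real.log_natCast_nonneg n
    by_cases hp : C.path i = []
    · refine ⟨∅, by simp, fun ω _ => ⟨0, ?_, ?_⟩⟩
      · have h1 : 0 ≤ Real.log (2 + ownCong C.path i + (C.path i).length + Real.log n) := by
          apply Real.log_nonneg
          have : (0 : ℝ) ≤ ownCong C.path i := by positivity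
          have : (0 : ℝ) ≤ (C.path i).length := by positivity
          linarith
        push_cast
        positivity
      · show (hist C frm ω 0 i).length = _
        rw [hp]
        rfl
    · have hc := one_le_ownCong C.path i hp
      have hd : 1 ≤ (C.path i).length := List.length_pos_iff.2 hp
      obtain ⟨s, b, hb, hir, h8, hd2, hexp, hM⟩ :=
        hA (ownCong C.path i) (C.path i).length n hc hd hn
      refine ⟨{ω | ¬ Arrived C frm ω (T0 s b (NN s b)) i},
        le_trans (late_prob2 C i hb hir hd2 h8) (ENNReal.ofReal_le_ofReal hexp),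
        fun ω hω => ?_⟩
      refine ⟨T0 s b (NN s b), ?_, not_not.1 hω⟩
      refine le_trans ?_ hM
      exact_mod_cast T0_end hb hir
  choose B hB1 hB2 using key
  have hn0 : (0 : ℝ) < n := by
    have : 0 < n := by omega
    exact_mod_cast this
  calc Measure.pi (fun _ : Fin n => (Measure.infinitePi ps2Law : Measure Sd2)) _
      ≤ ∑ i, Measure.pi (fun _ : Fin n => (Measure.infinitePi ps2Law : Measure Sd2)) (B i) :=
        union_all2 _ _ B hB2
    _ ≤ ∑ _i : Fin n, ENNReal.ofReal ((n : ℝ) ^ (-(α + 1))) :=
        Finset.sum_le_sum fun i _ => hB1 i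
    _ = ENNReal.ofReal ((n : ℝ) ^ (-α)) := by
        rw [Finset.sum_const, Finset.card_univ, Fintype.card_fin, nsmul_eq_mul,
          ← ENNReal.ofReal_natCast, ← ENNReal.ofReal_mul (by positivity)]
        congr 1
        have : (n : ℝ) ^ (-(α + 1)) = (n : ℝ) ^ (-α) * (n : ℝ) ^ (-1 : ℝ) := by
          rw [← Real.rpow_add hn0]
          congr 1
          ring
        rw [this, Real.rpow_neg_one]
        field_simp

end Pool.Agent.PR0225.Own
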