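import Pool.Agent.Lib_MP_0225c1.Own.Run2
import Pool.Agent.Lib_MP_0225c1.Own.Frame

open MeasureTheory ProbabilityTheory
open scoped ENNReal

namespace Pool.Agent.PR0225.Own

/-- one good phase -/
theorem prog_phase {G : Net} {n : ℕ} (C : Coll G n) (ω : Fin n → Sd2) (i : Fin n) {s b : ℕ}
    (hb : b < (s + 1) ^ 2) (hir : b / (s + 1) + b % (s + 1) ≤ s) {k : ℕ} (hk : k < NN s b)
    (hω : ¬ Bd2 C i s b k ω) :
    min (2 ^ (b % (s + 1)))
        ((C.path i).length - (hist C frm ω (T0 s b k) i).length) ≤
      (hist C frm ω (T0 s b (k + 1)) i).length - (hist C frm ω (T0 s b k) i).length := by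
  have hpow : 2 * (2 ^ (b % (s + 1)) * 2 ^ (b / (s + 1))) =
      2 ^ (b / (s + 1) + b % (s + 1) + 1) := by
    rw [pow_succ, pow_add]
    ring
  have h1 := run_frame C ω hb hir hk
  have h0 : (0 : ℕ) < 2 ^ (b / (s + 1) + b % (s + 1) + 1) := by positivity
  obtain ⟨_, _, h3, _, _⟩ := sched hb hir hk h0
  have hX : (ω i (T0 s b k) : ℕ) < 2 ^ (b % (s + 1)) := by
    have h4 := (ω i (T0 s b k)).isLt
    have h5 : rr (T0 s b k) = b % (s + 1) := by
      rw [add_zero] at h3
      exact h3
    exact lt_of_lt_of_eq h4 (congrArg (fun u => 2 ^ u) h5)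
  have h6 := frame_ok h1 (by positivity) i hX hω
  have h7 : (rest C (hist C frm ω (T0 s b k)) i).length =
      (C.path i).length - (hist C frm ω (T0 s b k) i).length := by
    unfold rest
    rw [List.length_drop]
  rw [h7] at h6
  rw [T0_succ]
  exact h6

open Classical in
/-- progress after `m` phases -/
theorem prog_ind {G : Net} {n : ℕ} (C : Coll G n) (ω : Fin n → Sd2) (i : Fin n) {s b : ℕ}
    (hb : b < (s + 1) ^ 2) (hir : b / (s + 1) + b % (s + 1) ≤ s) (m : ℕ) (hm : m ≤ NN s b) :
    min (C.path i).length
        (2 ^ (b % (s + 1)) * ((Finset.range m).filter fun k => ¬ Bd2 C i s b k ω).card) ≤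
      (hist C frm ω (T0 s b m) i).length := by
  induction m with
  | zero => simp
  | succ m ih =>
    have ih' := ih (by omega)
    have hmono : (hist C frm ω (T0 s b m) i).length ≤
        (hist C frm ω (T0 s b (m + 1)) i).length := by
      apply hist_mono'
      rw [T0_succ]
      omega
    rw [Finset.range_add_one, Finset.filter_insert]
    split_ifs with h
    · omega
    · have h1 := prog_phase C ω i hb hir (by omega : m < NN s b) h
      rw [Finset.card_insert_of_notMem (by simp), Nat.mul_add, Nat.mul_one]
      have h2 := hist_length' C frm ω (T0 s b (m + 1)) i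
      have h3 := hist_length' C frm ω (T0 s b m) i
      generalize 2 ^ (b % (s + 1)) *
        ((Finset.range m).filter fun k => ¬ Bd2 C i s b k ω).card = A at *
      generalize 2 ^ (b % (s + 1)) = R at *
      omega

open Classical in
/-- **PROG.** If fewer than half of the `N = NN s b` phases of the sub-block are bad for `i`, then
`i` arrives before the end of the sub-block, provided `2 d ≤ R N`.

Proof. For a phase `k < N` which is not bad, `frame_ok` and `run_frame` give
`min R (remaining length at T0 s b k) ≤ length of hist (T0 s b (k + 1)) - length of hist (T0 s b k)`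
(`T0_succ`; the random number of `i` is less than `2 ^ rr (T0 s b k) = R`, `sched` with `τ = 0`).
By induction on `m ≤ N`, `min d (R * number of the phases k < m which are not bad) ≤` length of the
history at `T0 s b m` (histories are monotone, `hist_mono'`). For `m = N` the number of good phases
`g` satisfies `2 g > N`, so `R g ≥ d`. Together with `hist_length'` this is `Arrived`. -/
theorem prog {G : Net} {n : ℕ} (C : Coll G n) (ω : Fin n → Sd2) (i : Fin n) {s b : ℕ}
    (hb : b < (s + 1) ^ 2) (hir : b / (s + 1) + b % (s + 1) ≤ s)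
    (hd : 2 * (C.path i).length ≤ 2 ^ (b % (s + 1)) * NN s b)
    (hω : 2 * ((Finset.range (NN s b)).filter fun k => Bd2 C i s b k ω).card < NN s b) :
    Arrived C frm ω (T0 s b (NN s b)) i := by
  have h1 := prog_ind C ω i hb hir (NN s b) le_rfl
  have h2 := hist_length' C frm ω (T0 s b (NN s b)) i
  have h3 : ((Finset.range (NN s b)).filter fun k => Bd2 C i s b k ω).card +
      ((Finset.range (NN s b)).filter fun k => ¬ Bd2 C i s b k ω).card = NN s b := by
    rw [Finset.card_filter_add_card_filter_not, Finset.card_range]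
  unfold Arrived
  set g := ((Finset.range (NN s b)).filter fun k => ¬ Bd2 C i s b k ω).card with hg
  set R := 2 ^ (b % (s + 1)) with hR
  have h4 : NN s b ≤ 2 * g := by omega
  have h5 : R * NN s b ≤ 2 * (R * g) := by
    calc R * NN s b ≤ R * (2 * g) := Nat.mul_le_mul_left _ h4
      _ = 2 * (R * g) := by ring
  omega

end Pool.Agent.PR0225.Own
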