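import Pool.Agent.Lib_MP_0225c1.Own.Defs

open MeasureTheory ProbabilityTheory
open scoped ENNReal

namespace Pool.Agent.PR0225.Own

/-- translations preserve the uniform law -/
theorem rs_law (t : ℕ) (c : PS2 t) : (ps2Law t).map (fun y => y + c) = ps2Law t := by
  refine Measure.ext_of_singleton fun a => ?_
  rw [Measure.map_apply (Measurable.of_discrete) (measurableSet_singleton a)]
  have h : (fun y : PS2 t => y + c) ⁻¹' {a} = {a - c} := by
    ext y
    rw [Set.mem_preimage, Set.mem_singleton_iff, Set.mem_singleton_iff, eq_sub_iff_add_eq]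
  rw [h, ps2Law, uniformOn_univ, uniformOn_univ, Measure.count_singleton, Measure.count_singleton]

/-- translation of the random number of the phase which starts at time `t` -/
theorem rs_inf (t : ℕ) (c : PS2 t) :
    (Measure.infinitePi ps2Law).map (fun s : Sd2 => Function.update s t (s t + c)) =
      Measure.infinitePi ps2Law := by
  have hf : ∀ j, Measurable ((Function.update (fun j => (id : PS2 j → PS2 j)) t fun y => y + c) j) :=
    fun j => Measurable.of_discrete
  have h := Measure.infinitePi_map_pi ps2Law hf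
  have h1 : (fun (x : Sd2) (i : ℕ) =>
      (Function.update (fun j => (id : PS2 j → PS2 j)) t fun y => y + c) i (x i)) =
      fun s : Sd2 => Function.update s t (s t + c) := by
    funext s j
    by_cases hj : j = t
    · subst hj
      simp
    · simp [Function.update_of_ne hj]
  have h2 : (fun i => (ps2Law i).map
      ((Function.update (fun j => (id : PS2 j → PS2 j)) t fun y => y + c) i)) = ps2Law := by
    funext j
    by_cases hj : j = t
    · subst hj
      rw [Function.update_self]
      exact rs_law j c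
    · rw [Function.update_of_ne hj, Measure.map_id]
  rw [h1, h2] at h
  exact h

theorem rs_meas1 (t : ℕ) (c : PS2 t) :
    Measurable (fun s : Sd2 => Function.update s t (s t + c)) := by
  refine measurable_pi_iff.2 fun j => ?_
  by_cases hj : j = t
  · subst hj
    simp only [Function.update_self]
    exact (Measurable.of_discrete (f := fun y : PS2 j => y + c)).comp (measurable_pi_apply j)
  · simp only [Function.update_of_ne hj]
    exact measurable_pi_apply j

theorem rs_pi {n : ℕ} (t : ℕ) (c : Fin n → PS2 t) :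
    (Measure.pi fun _ : Fin n => Measure.infinitePi ps2Law).map
      (fun ω : Fin n → Sd2 => upd ω t fun i => ω i t + c i) =
      Measure.pi fun _ : Fin n => Measure.infinitePi ps2Law := by
  have : ∀ i, SigmaFinite ((Measure.infinitePi ps2Law).map
      (fun s : Sd2 => Function.update s t (s t + c i))) := by
    intro i
    rw [rs_inf]
    infer_instance
  have h := Measure.pi_map_pi (μ := fun _ : Fin n => Measure.infinitePi ps2Law)
    (f := fun i (s : Sd2) => Function.update s t (s t + c i))
    (fun i => (rs_meas1 t (c i)).aemeasurable)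
  simp only [rs_inf] at h
  exact h

theorem rs_meas2 {n : ℕ} (t : ℕ) (c : Fin n → PS2 t) :
    Measurable (fun ω : Fin n → Sd2 => upd ω t fun i => ω i t + c i) := by
  refine measurable_pi_iff.2 fun i => ?_
  exact (rs_meas1 t (c i)).comp (measurable_pi_apply i)

/-- functions of finitely many coordinates are measurable -/
theorem rs_meas3 {n : ℕ} (J : ℕ) (Ψ : (Fin n → Sd2) → ℝ≥0∞)
    (hΨ : ∀ ω ω' : Fin n → Sd2, (∀ i, ∀ j < J, ω i j = ω' i j) → Ψ ω = Ψ ω') : Measurable Ψ := by
  have h1 : Ψ = (fun x : Fin n → (j : Fin J) → PS2 j =>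
      Ψ fun i j => if h : j < J then x i ⟨j, h⟩ else 0) ∘
      fun (ω : Fin n → Sd2) (i : Fin n) (j : Fin J) => ω i j := by
    funext ω
    refine hΨ _ _ fun i j hj => ?_
    simp [hj]
  rw [h1]
  refine (measurable_of_countable _).comp ?_
  refine measurable_pi_iff.2 fun i => measurable_pi_iff.2 fun j => ?_
  exact (measurable_pi_apply (j : ℕ)).comp (measurable_pi_apply i)

/-- **RES.** Resampling the random numbers of one phase does not change the expectation. `Ψ` depends
only on the coordinates `< J`.

Proof. `PS2 t = Fin (2 ^ rr t)` is a finite group (addition modulo `2 ^ rr t`), so `Fin n → PS2 t` is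
one, and for each `g` the map `ω ↦ upd ω t (fun i => ω i t + g i)` preserves the measure (it is a
product of maps which act on coordinates, each preserving the uniform measure; or: both sides are
finite sums, since `Ψ` depends on finitely many coordinates with finitely many values; compare
`Pool/Agent/Lib_MP_0225c1/Trans.lean`, where the measure of a box is computed with
`Measure.pi_pi` and `Measure.infinitePi_pi`). Average over `g`. -/
theorem lint_upd {n : ℕ} (t J : ℕ) (Ψ : (Fin n → Sd2) → ℝ≥0∞)
    (hΨ : ∀ ω ω' : Fin n → Sd2, (∀ i, ∀ j < J, ω i j = ω' i j) → Ψ ω = Ψ ω') :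
    ∫⁻ ω, Ψ ω ∂(Measure.pi fun _ : Fin n => Measure.infinitePi ps2Law) =
      ∫⁻ ω, (∑ η : Fin n → PS2 t, Ψ (upd ω t η)) / (Fintype.card (Fin n → PS2 t) : ℝ≥0∞)
        ∂(Measure.pi fun _ : Fin n => Measure.infinitePi ps2Law) := by
  have hm := rs_meas3 J Ψ hΨ
  set P : Measure (Fin n → Sd2) := Measure.pi fun _ : Fin n => Measure.infinitePi ps2Law with hP
  have h1 : ∀ c : Fin n → PS2 t, ∫⁻ ω, Ψ ω ∂P = ∫⁻ ω, Ψ (upd ω t fun i => ω i t + c i) ∂P := by
    intro c
    have h2 := lintegral_map (μ := P) hm (rs_meas2 t c)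
    rw [hP, rs_pi, ← hP] at h2
    exact h2
  have h3 : (Fintype.card (Fin n → PS2 t) : ℝ≥0∞) * ∫⁻ ω, Ψ ω ∂P =
      ∫⁻ ω, ∑ η : Fin n → PS2 t, Ψ (upd ω t η) ∂P := by
    have h4 : ∀ ω : Fin n → Sd2, ∑ η : Fin n → PS2 t, Ψ (upd ω t η) =
        ∑ c : Fin n → PS2 t, Ψ (upd ω t fun i => ω i t + c i) := by
      intro ω
      exact (Equiv.sum_comp (Equiv.addLeft (fun i => ω i t)) fun η => Ψ (upd ω t η)).symm
    simp only [h4]
    have h5 := lintegral_finsetSum (μ := P) (Finset.univ : Finset (Fin n → PS2 t))
      (f := fun c ω => Ψ (upd ω t fun i => ω i t + c i)) fun c _ => hm.comp (rs_meas2 t c)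
    rw [h5]
    rw [Finset.sum_congr rfl fun c _ => (h1 c).symm, Finset.sum_const, Finset.card_univ,
      nsmul_eq_mul]
  have hc0 : (Fintype.card (Fin n → PS2 t) : ℝ≥0∞) ≠ 0 := by
    exact_mod_cast (Fintype.card_pos (α := Fin n → PS2 t)).ne'
  have hct : (Fintype.card (Fin n → PS2 t) : ℝ≥0∞) ≠ ⊤ := ENNReal.natCast_ne_top _
  simp only [div_eq_mul_inv]
  rw [lintegral_mul_const' _ _ (ENNReal.inv_ne_top.2 hc0), ← h3, mul_comm, ← mul_assoc,
    ENNReal.inv_mul_cancel hc0 hct, one_mul]

end Pool.Agent.PR0225.Own
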