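import Pool.Agent.Lib_MP_0225c1.Own.Defs

open MeasureTheory ProbabilityTheory
open scoped ENNReal

namespace Pool.Agent.PR0225.Own

private theorem blk_succ (s : ℕ) : blk (s + 1) = blk s + (s + 1) ^ 2 * 2 ^ (s + 1) := by
  unfold blk
  rw [Finset.sum_range_succ]

private theorem blk_mono : Monotone blk := by
  refine monotone_nat_of_le_succ fun s => ?_
  rw [blk_succ]
  exact Nat.le_add_right _ _

private theorem le_blk (s : ℕ) : s ≤ blk s := by
  induction s with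
  | zero => exact Nat.zero_le _
  | succ s ih =>
    rw [blk_succ]
    have h : 0 < (s + 1) ^ 2 * 2 ^ (s + 1) := by positivity
    omega

private theorem NN_mul {s b : ℕ} (hir : b / (s + 1) + b % (s + 1) ≤ s) :
    NN s b * 2 ^ (b / (s + 1) + b % (s + 1) + 1) = 2 ^ (s + 1) := by
  unfold NN
  rw [← pow_add]
  congr 1
  omega

private theorem blk_end {s b : ℕ} (hb : b < (s + 1) ^ 2) :
    blk s + b * 2 ^ (s + 1) + 2 ^ (s + 1) ≤ blk (s + 1) := by
  have h : (b + 1) * 2 ^ (s + 1) ≤ (s + 1) ^ 2 * 2 ^ (s + 1) := Nat.mul_le_mul_right _ hb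
  rw [Nat.add_mul, Nat.one_mul] at h
  rw [blk_succ]
  omega

/-- **SCH1.** `Σ_{s' ≤ s} (s' + 1) ^ 2 * 2 ^ (s' + 1) ≤ (s + 1) ^ 2 * Σ 2 ^ (s' + 1)`. -/
theorem blk_le (s : ℕ) : blk (s + 1) ≤ (s + 1) ^ 2 * 2 ^ (s + 2) := by
  induction s with
  | zero =>
    rw [blk_succ]
    simp [blk]
  | succ s ih =>
    rw [blk_succ]
    have h1 : (s + 1) ^ 2 ≤ (s + 1 + 1) ^ 2 := Nat.pow_le_pow_left (Nat.le_succ _) 2
    have h2 : (s + 1) ^ 2 * 2 ^ (s + 2) ≤ (s + 1 + 1) ^ 2 * 2 ^ (s + 2) := Nat.mul_le_mul_right _ h1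
    have h3 : (s + 1 + 1) ^ 2 * 2 ^ (s + 1 + 2) = 2 * ((s + 1 + 1) ^ 2 * 2 ^ (s + 2)) := by ring
    have h4 : (s + 1 + 1) ^ 2 * 2 ^ (s + 1 + 1) = (s + 1 + 1) ^ 2 * 2 ^ (s + 2) := rfl
    rw [h3, h4]
    omega

/-- **SCH2.** `blk` is strictly increasing and `s ≤ blk s`. -/
theorem bs_eq (s t : ℕ) (h1 : blk s ≤ t) (h2 : t < blk (s + 1)) : bs t = s := by
  unfold bs
  rw [Nat.findGreatest_eq_iff]
  refine ⟨(le_blk s).trans h1, fun _ => h1, fun n hn _ h => ?_⟩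
  have h3 : blk (s + 1) ≤ blk n := blk_mono hn
  omega

/-- **SCH3.** The functions of the schedule in step `τ` of phase `k` of the sub-block `b` of block
`s`. Proof: with `i = b / (s + 1)`, `r = b % (s + 1)`, `P = 2 ^ (i + r + 1)`, the time is
`blk s + b * 2 ^ (s + 1) + (k * P + τ)` with `k * P + τ < NN s b * P = 2 ^ (s + 1)`, and
`b * 2 ^ (s + 1) + 2 ^ (s + 1) ≤ (s + 1) ^ 2 * 2 ^ (s + 1) = blk (s + 1) - blk s`. -/
theorem sched {s b k τ : ℕ} (hb : b < (s + 1) ^ 2) (hir : b / (s + 1) + b % (s + 1) ≤ s)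
    (hk : k < NN s b) (hτ : τ < 2 ^ (b / (s + 1) + b % (s + 1) + 1)) :
    bs (T0 s b k + τ) = s ∧ ii (T0 s b k + τ) = b / (s + 1) ∧
      rr (T0 s b k + τ) = b % (s + 1) ∧ st (T0 s b k + τ) = T0 s b k ∧
      fr (T0 s b k + τ) = τ / 2 ^ (b / (s + 1)) := by
  have hN := NN_mul hir
  have hE := blk_end hb
  set P : ℕ := 2 ^ (b / (s + 1) + b % (s + 1) + 1) with hP
  have h1 : (k + 1) * P ≤ 2 ^ (s + 1) := by
    rw [← hN]
    exact Nat.mul_le_mul_right _ hk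
  rw [Nat.add_mul, Nat.one_mul] at h1
  have hT : T0 s b k + τ = blk s + (b * 2 ^ (s + 1) + (k * P + τ)) := by
    unfold T0
    rw [← hP]
    omega
  have hpos : 0 < 2 ^ (s + 1) := Nat.two_pow_pos _
  have hbs : bs (T0 s b k + τ) = s := by
    refine bs_eq s _ ?_ ?_
    · rw [hT]
      exact Nat.le_add_right _ _
    · rw [hT]
      omega
  have hoff : off (T0 s b k + τ) = b * 2 ^ (s + 1) + (k * P + τ) := by
    unfold off
    rw [hbs, hT]
    omega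
  have hlt : k * P + τ < 2 ^ (s + 1) := by omega
  have hdiv : off (T0 s b k + τ) / 2 ^ (s + 1) = b := by
    rw [hoff, Nat.add_comm, Nat.add_mul_div_right _ _ hpos, Nat.div_eq_of_lt hlt, Nat.zero_add]
  have hmod : off (T0 s b k + τ) % 2 ^ (s + 1) = k * P + τ := by
    rw [hoff, Nat.add_comm, Nat.add_mul_mod_self_right, Nat.mod_eq_of_lt hlt]
  have hii : ii (T0 s b k + τ) = b / (s + 1) := by
    unfold ii
    rw [hbs, hdiv]
  have hrr : rr (T0 s b k + τ) = b % (s + 1) := by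
    unfold rr
    rw [hbs, hdiv]
  have hio : io (T0 s b k + τ) = τ := by
    unfold io
    rw [hbs, hmod, hii, hrr, ← hP, Nat.add_comm, Nat.add_mul_mod_self_right, Nat.mod_eq_of_lt hτ]
  refine ⟨hbs, hii, hrr, ?_, ?_⟩
  · unfold st
    rw [hio]
    omega
  · unfold fr
    rw [hio, hii]

/-- **SCH4.** -/
theorem T0_end {s b : ℕ} (hb : b < (s + 1) ^ 2) (hir : b / (s + 1) + b % (s + 1) ≤ s) :
    T0 s b (NN s b) ≤ blk (s + 1) := by
  have hN := NN_mul hir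
  have hE := blk_end hb
  unfold T0
  rw [hN]
  exact hE

/-- **SCH5.** -/
theorem T0_succ (s b k : ℕ) :
    T0 s b (k + 1) = T0 s b k + 2 * (2 ^ (b % (s + 1)) * 2 ^ (b / (s + 1))) := by
  unfold T0
  have h : 2 * (2 ^ (b % (s + 1)) * 2 ^ (b / (s + 1))) = 2 ^ (b / (s + 1) + b % (s + 1) + 1) := by
    rw [pow_succ, pow_add]
    ring
  rw [h, Nat.add_mul, Nat.one_mul]
  omega

end Pool.Agent.PR0225.Own
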