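import Pool.Agent.Lib_MP_0225c1.Own.Fwd2
import Pool.Agent.Lib_MP_0225c1.Own.Sched

open MeasureTheory ProbabilityTheory
open scoped ENNReal

namespace Pool.Agent.PR0225.Own

/-- eligibility in step `τ` of a phase -/
theorem elig_iff_run {G : Net} {n : ℕ} (C : Coll G n) (ω : Fin n → Sd2) {s b k τ : ℕ}
    (hb : b < (s + 1) ^ 2) (hir : b / (s + 1) + b % (s + 1) ≤ s) (hk : k < NN s b)
    (hτ : τ < 2 ^ (b / (s + 1) + b % (s + 1) + 1)) (q : Fin n) :
    elig (T0 s b k + τ) (info C ω (hist C frm ω (T0 s b k + τ)) q) ↔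
      (ω q (T0 s b k) : ℕ) + ((hist C frm ω (T0 s b k + τ) q).length -
        (hist C frm ω (T0 s b k) q).length) = τ / 2 ^ (b / (s + 1)) := by
  obtain ⟨h1, h2, h3, h4, h5⟩ := sched hb hir hk hτ
  have h7 := hist_filter' C frm ω (T0 s b k) (T0 s b k + τ) (by omega) q
  unfold elig cr
  rw [h1, h2, h3, h5]
  simp only [info]
  rw [h4, h7]
  constructor
  · rintro ⟨_, h⟩
    exact h
  · intro h
    exact ⟨hir, h⟩

theorem drop_next_run {G : Net} {n : ℕ} (C : Coll G n) (ω : Fin n → Sd2) (s t : ℕ) (hst : s ≤ t)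
    (i : Fin n) :
    (rest C (hist C frm ω s) i)[(hist C frm ω t i).length -
        (hist C frm ω s i).length]? = (info C ω (hist C frm ω t) i).next := by
  have h := hist_mono' C frm ω s t hst i
  unfold rest
  rw [List.getElem?_drop]
  unfold Info.next info
  simp only
  congr 1
  omega

/-- **RUN2.** Phase `k` of the sub-block `b` of block `s` is a `FrameRun` on the remaining paths.

Proof. For `τ < 2 * (2 ^ r * 2 ^ i) = 2 ^ (i + r + 1)` the time `t = T0 s b k + τ` satisfies
`st t = T0 s b k`, `fr t = τ / 2 ^ i`, and `elig` is `X + cr = fr t` (`sched`), where by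
`hist_filter'` `cr t` of packet `q` is `x τ q = length now - length at the start of the phase`. The
edge for which `q` waits is `(rest q)[x τ q]?`. Use `hist_succ'`, `hist_length'`, `frmFwd_iff`,
`frmFwd_exists` (compare `Pool/Agent/Lib_MP_0225c1/Run.lean`). -/
theorem run_frame {G : Net} {n : ℕ} (C : Coll G n) (ω : Fin n → Sd2) {s b k : ℕ}
    (hb : b < (s + 1) ^ 2) (hir : b / (s + 1) + b % (s + 1) ≤ s) (hk : k < NN s b) :
    FrameRun (2 ^ (b / (s + 1))) (2 ^ (b % (s + 1))) (rest C (hist C frm ω (T0 s b k)))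
      (fun q => (ω q (T0 s b k) : ℕ))
      (fun τ q => (hist C frm ω (T0 s b k + τ) q).length -
        (hist C frm ω (T0 s b k) q).length) := by
  have hmono : ∀ τ i, (hist C frm ω (T0 s b k) i).length ≤
      (hist C frm ω (T0 s b k + τ) i).length := fun τ i =>
    hist_mono' C frm ω _ _ (by omega) i
  have hpow : 2 * (2 ^ (b % (s + 1)) * 2 ^ (b / (s + 1))) =
      2 ^ (b / (s + 1) + b % (s + 1) + 1) := by
    rw [pow_succ, pow_add]
    ring
  have hcross' : ∀ τ i, (∃ e, Crosses C frm ω (hist C frm ω (T0 s b k + τ)) (T0 s b k + τ) i e) →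
      (hist C frm ω (T0 s b k + (τ + 1)) i).length -
        (hist C frm ω (T0 s b k) i).length = (hist C frm ω (T0 s b k + τ) i).length -
        (hist C frm ω (T0 s b k) i).length + 1 := by
    intro τ i h
    rcases hist_succ' C frm ω (T0 s b k + τ) i with ⟨h1, _⟩ | ⟨_, h2⟩
    · rw [← add_assoc, h1, List.length_append, List.length_singleton]
      have := hmono τ i
      omega
    · exact absurd h h2
  refine ⟨?_, ?_, ?_⟩
  · intro i
    simp
  · intro τ hτ i
    have hτ' : τ < 2 ^ (b / (s + 1) + b % (s + 1) + 1) := by rw [← hpow]; exact hτ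
    by_cases h : ∃ e, Crosses C frm ω (hist C frm ω (T0 s b k + τ)) (T0 s b k + τ) i e
    · right
      refine ⟨hcross' τ i h, ?_⟩
      obtain ⟨e, h1, h2⟩ := h
      have h3 := ((frmFwd_iff C ω _ _ e i).1 h2).2.1
      exact (elig_iff_run C ω hb hir hk hτ' i).1 h3
    · left
      rcases hist_succ' C frm ω (T0 s b k + τ) i with ⟨_, h2⟩ | ⟨h1, _⟩
      · exact absurd h2 h
      · show (hist C frm ω (T0 s b k + (τ + 1)) i).length - _ = _
        rw [← add_assoc, h1]
  · intro τ hτ i hlt hel
    have hτ' : τ < 2 ^ (b / (s + 1) + b % (s + 1) + 1) := by rw [← hpow]; exact hτ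
    have hlt' : (hist C frm ω (T0 s b k + τ) i).length < (C.path i).length := by
      have h3 : (hist C frm ω (T0 s b k + τ) i).length -
        (hist C frm ω (T0 s b k) i).length <
          ((C.path i).drop (hist C frm ω (T0 s b k) i).length).length := hlt
      rw [List.length_drop] at h3
      have := hmono τ i
      omega
    obtain ⟨e, he⟩ : ∃ e, (info C ω (hist C frm ω (T0 s b k + τ)) i).next = some e := by
      unfold Info.next info
      simp only
      exact ⟨_, List.getElem?_eq_getElem hlt'⟩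
    obtain ⟨i', hi1, hi2⟩ := frmFwd_exists C ω (hist C frm ω (T0 s b k + τ)) (T0 s b k + τ) e i he
      ((elig_iff_run C ω hb hir hk hτ' i).2 hel)
    refine ⟨i', ?_, ?_⟩
    · show (rest C (hist C frm ω (T0 s b k)) i')[(hist C frm ω (T0 s b k + τ) i').length -
        (hist C frm ω (T0 s b k) i').length]? =
        (rest C (hist C frm ω (T0 s b k)) i)[(hist C frm ω (T0 s b k + τ) i).length -
        (hist C frm ω (T0 s b k) i).length]?
      rw [drop_next_run C ω (T0 s b k) (T0 s b k + τ) (by omega) i,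
        drop_next_run C ω (T0 s b k) (T0 s b k + τ) (by omega) i', he, hi1]
    · exact hcross' τ i' ⟨e, hi1, hi2⟩

end Pool.Agent.PR0225.Own
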